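import Mathlib

namespace Pool.Agent.Results.MP_f0e28a_gt.ZeroTwoThree

open Set Module Filter Topology
open scoped RealInnerProductSpace Matrix

/-! ## Definitions -/

section Defs

variable {E : Type*} [NormedAddCommGroup E] [InnerProductSpace ℝ E]

/-- `F` is a face of the convex set `C`: a convex subset such that whenever `x, y` are in `C` and
the open segment between them meets `F`, both `x` and `y` lie in `F`. -/
def IsFace (C F : Set E) : Prop :=
  F ⊆ C ∧ Convex ℝ F ∧
    ∀ x ∈ C, ∀ y ∈ C, (openSegment ℝ x y ∩ F).Nonempty → x ∈ F ∧ y ∈ F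

/-- The dimension of a set: the dimension of its affine hull. -/
noncomputable def dim (C : Set E) : ℕ := finrank ℝ (affineSpan ℝ C).direction

/-- The facial dimension signature: the set of dimensions of the nonempty faces. -/
def signature (C : Set E) : Set ℕ := {k | ∃ F, F.Nonempty ∧ IsFace C F ∧ dim F = k}

/-- `F` is the intersection of `C` with the boundary hyperplane of a closed half-space
containing `C`. -/
def IsExposedFace (C F : Set E) : Prop :=
  ∃ (a : E) (b : ℝ), a ≠ 0 ∧ (∀ x ∈ C, ⟪a, x⟫ ≤ b) ∧ F = {x | x ∈ C ∧ ⟪a, x⟫ = b}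

/-- Every nonempty proper face is exposed. -/
def FaciallyExposed (C : Set E) : Prop :=
  ∀ F, IsFace C F → F.Nonempty → F ≠ C → IsExposedFace C F

/-- The polar. -/
def polar (C : Set E) : Set E := {y | ∀ x ∈ C, ⟪x, y⟫ ≤ 1}

end Defs

/-- Spectrahedra: the sets `{x | A₀ + x₁ A₁ + ⋯ + xₙ Aₙ ⪰ 0}` with real symmetric matrices
`A₀, …, Aₙ` of a common size. -/
def IsSpectrahedron {n : ℕ} (S : Set (EuclideanSpace ℝ (Fin n))) : Prop :=
  ∃ (m : ℕ) (A₀ : Matrix (Fin m) (Fin m) ℝ) (A : Fin n → Matrix (Fin m) (Fin m) ℝ),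
    A₀.IsSymm ∧ (∀ i, (A i).IsSymm) ∧ S = {x | (A₀ + ∑ i, x i • A i).PosSemidef}

/-! ## Dimension -/

set_option linter.unusedSectionVars false

section Core

variable {V : Type*} [NormedAddCommGroup V] [InnerProductSpace ℝ V] [FiniteDimensional ℝ V]

lemma dim_eq (G : Set V) : dim G = finrank ℝ (vectorSpan ℝ G) := by
  unfold dim; rw [direction_affineSpan]

lemma one_le_dim {G : Set V} {x y : V} (hx : x ∈ G) (hy : y ∈ G) (hxy : x ≠ y) :
    1 ≤ dim G := by
  rw [dim_eq]
  by_contra h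
  have h0 : finrank ℝ (vectorSpan ℝ G) = 0 := by omega
  rw [Submodule.finrank_eq_zero] at h0
  have := vsub_mem_vectorSpan ℝ hx hy
  rw [h0, Submodule.mem_bot, vsub_eq_zero_iff_eq] at this
  exact hxy this

lemma vectorSpan_le_orth {G : Set V} {a : V} {b : ℝ} (h : ∀ x ∈ G, ⟪a, x⟫ = b) :
    vectorSpan ℝ G ≤ (Submodule.span ℝ {a})ᗮ := by
  rw [vectorSpan_def, Submodule.span_le]
  rintro v ⟨x, hx, y, hy, rfl⟩
  simp only [vsub_eq_sub, SetLike.mem_coe]
  rw [Submodule.mem_orthogonal_singleton_iff_inner_right, inner_sub_right, h x hx, h y hy, sub_self]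

lemma finrank_orth (hV : finrank ℝ V = 3) {a : V} (ha : a ≠ 0) :
    finrank ℝ (Submodule.span ℝ {a} : Submodule ℝ V)ᗮ = 2 := by
  have : Fact (finrank ℝ V = 2 + 1) := ⟨hV⟩
  exact Submodule.finrank_orthogonal_span_singleton ha

lemma dim_le_two (hV : finrank ℝ V = 3) {G : Set V} {a : V} {b : ℝ} (ha : a ≠ 0)
    (h : ∀ x ∈ G, ⟪a, x⟫ = b) : dim G ≤ 2 := by
  rw [dim_eq, ← finrank_orth hV ha]
  exact Submodule.finrank_mono (vectorSpan_le_orth h)

/-- The points of `S` at which a linear function is maximal form a face. -/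
lemma isFace_exposed {S : Set V} (hc : Convex ℝ S) {g : V} {β : ℝ} (h : ∀ s ∈ S, ⟪g, s⟫ ≤ β) :
    IsFace S {s | s ∈ S ∧ ⟪g, s⟫ = β} := by
  refine ⟨fun s hs => hs.1, ?_, ?_⟩
  · intro x hx y hy s t hs ht hst
    refine ⟨hc hx.1 hy.1 hs ht hst, ?_⟩
    rw [inner_add_right, inner_smul_right, inner_smul_right, hx.2, hy.2, ← add_mul, hst, one_mul]
  · rintro x hx y hy ⟨z, ⟨s, t, hs, ht, hst, rfl⟩, hz, hz2⟩
    rw [inner_add_right, inner_smul_right, inner_smul_right] at hz2
    have h1 := h x hx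
    have h2 := h y hy
    have e : s * (β - ⟪g, x⟫) + t * (β - ⟪g, y⟫) = 0 := by linear_combination β * hst - hz2
    refine ⟨⟨hx, ?_⟩, ⟨hy, ?_⟩⟩
    · by_contra hne
      have h3 : ⟪g, x⟫ < β := lt_of_le_of_ne h1 hne
      nlinarith [mul_pos hs (sub_pos.2 h3), mul_nonneg ht.le (sub_nonneg.2 h2)]
    · by_contra hne
      have h3 : ⟪g, y⟫ < β := lt_of_le_of_ne h2 hne
      nlinarith [mul_pos ht (sub_pos.2 h3), mul_nonneg hs.le (sub_nonneg.2 h1)]

lemma IsFace.trans {S F G : Set V} (h1 : IsFace S F) (h2 : IsFace F G) : IsFace S G := by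
  refine ⟨h2.1.trans h1.1, h2.2.1, ?_⟩
  rintro x hx y hy ⟨z, hz, hzG⟩
  obtain ⟨hx', hy'⟩ := h1.2.2 x hx y hy ⟨z, hz, h2.1 hzG⟩
  exact h2.2.2 x hx' y hy' ⟨z, hz, hzG⟩

lemma IsFace.inter {S F G : Set V} (h1 : IsFace S F) (h2 : IsFace S G) : IsFace S (F ∩ G) := by
  refine ⟨fun x hx => h1.1 hx.1, h1.2.1.inter h2.2.1, ?_⟩
  rintro x hx y hy ⟨z, hz, hzF, hzG⟩
  obtain ⟨a1, a2⟩ := h1.2.2 x hx y hy ⟨z, hz, hzF⟩
  obtain ⟨b1, b2⟩ := h2.2.2 x hx y hy ⟨z, hz, hzG⟩
  exact ⟨⟨a1, b1⟩, ⟨a2, b2⟩⟩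

/-! ## Facets are countable -/

lemma countable_facets (hV : finrank ℝ V = 3) {S : Set V} {q : V} :
    {g : V | (∀ s ∈ S, ⟪g, s - q⟫ ≤ 1) ∧ dim {s | s ∈ S ∧ ⟪g, s - q⟫ = 1} = 2}.Countable := by
  classical
  set D : Set V := {h | ∀ s ∈ S, ⟪h, s - q⟫ ≤ 1} with hD
  let N : V → Set V := fun g => {p | ∀ h ∈ D, ⟪h, p⟫ ≤ ⟪g, p⟫}
  have hNc : ∀ g, Convex ℝ (N g) := by
    intro g x hx y hy s t hs ht hst h hh
    simp only [inner_add_right, inner_smul_right]
    have h1 := hx h hh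
    have h2 := hy h hh
    nlinarith [mul_le_mul_of_nonneg_left h1 hs, mul_le_mul_of_nonneg_left h2 ht]
  refine Set.PairwiseDisjoint.countable_of_nonempty_interior (s := fun g => interior (N g)) ?_ ?_
  · rintro g ⟨hg1, -⟩ g' ⟨hg1', -⟩ hne
    rw [Function.onFun, Set.disjoint_left]
    intro p hp hp'
    apply hne
    have hU : ∀ᶠ t : ℝ in 𝓝 (0 : ℝ), p + t • (g - g') ∈ interior (N g) ∩ interior (N g') := by
      have hcont : Continuous fun t : ℝ => p + t • (g - g') := by fun_prop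
      have hopen : IsOpen (interior (N g) ∩ interior (N g')) :=
        isOpen_interior.inter isOpen_interior
      refine hcont.continuousAt.eventually_mem (hopen.mem_nhds ?_)
      simpa using ⟨hp, hp'⟩
    have hU' : ∀ᶠ t : ℝ in 𝓝[≠] (0 : ℝ), p + t • (g - g') ∈ interior (N g) ∩ interior (N g') :=
      hU.filter_mono nhdsWithin_le_nhds
    obtain ⟨t, ht, ht0⟩ := (hU'.and self_mem_nhdsWithin).exists
    have e1 := interior_subset ht.1 g' hg1'
    have e2 := interior_subset ht.2 g hg1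
    have e3 := interior_subset hp g' hg1'
    have e4 := interior_subset hp' g hg1
    have e5 : t * ⟪g - g', g - g'⟫ = 0 := by
      have : ⟪g - g', p + t • (g - g')⟫ = 0 := by rw [inner_sub_left]; linarith
      have h2 : ⟪g - g', p⟫ = 0 := by rw [inner_sub_left]; linarith
      rw [inner_add_right, h2, inner_smul_right, zero_add] at this
      exact this
    rcases mul_eq_zero.1 e5 with h | h
    · exact absurd h ht0
    · rw [inner_self_eq_zero, sub_eq_zero] at h
      exact h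
  · rintro g ⟨hg1, hg2⟩
    rw [isOpen_interior.interior_eq, (hNc g).interior_nonempty_iff_affineSpan_eq_top]
    have h0N : (0 : V) ∈ N g := by intro h _; simp
    rw [AffineSubspace.affineSpan_eq_top_iff_vectorSpan_eq_top_of_nonempty ℝ V V ⟨0, h0N⟩]
    set G : Set V := {s | s ∈ S ∧ ⟪g, s - q⟫ = 1} with hG
    have hGne : G.Nonempty := by
      rw [Set.nonempty_iff_ne_empty]
      intro h
      rw [h, dim_eq, vectorSpan_empty, finrank_bot] at hg2
      exact absurd hg2 (by norm_num)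
    obtain ⟨s0, hs0⟩ := hGne
    have hmemN : ∀ s ∈ G, s - q ∈ N g := by
      intro s hs h hh
      rw [hs.2]
      exact hh s hs.1
    have hle : vectorSpan ℝ G ≤ vectorSpan ℝ (N g) := by
      rw [vectorSpan_def, Submodule.span_le]
      rintro v ⟨x, hx, y, hy, rfl⟩
      have := vsub_mem_vectorSpan ℝ (hmemN x hx) (hmemN y hy)
      simpa using this
    have hs0N : s0 - q ∈ vectorSpan ℝ (N g) := by
      have := vsub_mem_vectorSpan ℝ (hmemN s0 hs0) h0N
      simpa using this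
    have hs0G : s0 - q ∉ vectorSpan ℝ G := by
      intro hmem
      have hor := vectorSpan_le_orth (G := G) (a := g) (b := 1 + ⟪g, q⟫) (by
        intro x hx
        have := hx.2
        rw [inner_sub_right] at this
        linarith) hmem
      rw [Submodule.mem_orthogonal_singleton_iff_inner_right, hs0.2] at hor
      exact one_ne_zero hor
    have hlt : vectorSpan ℝ G < vectorSpan ℝ (N g) :=
      lt_of_le_of_ne hle (fun h => hs0G (h ▸ hs0N))
    have h3 := Submodule.finrank_lt_finrank_of_lt hlt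
    rw [← dim_eq, hg2] at h3
    apply Submodule.eq_top_of_finrank_eq
    have := Submodule.finrank_le (vectorSpan ℝ (N g))
    omega

/-! ## Closed convex sets with an extreme point contain no line -/

lemma no_line {S : Set V} (hc : Convex ℝ S) (hcl : IsClosed S) {x0 : V} (h0 : IsFace S {x0})
    (f v : V) (hv : v ≠ 0) (h : ∀ t : ℝ, f + t • v ∈ S) : False := by
  have hx0 : x0 ∈ S := h0.1 rfl
  have key : ∀ c : ℝ, x0 + c • v ∈ S := by
    intro c
    have hlim : Tendsto (fun n : ℕ => x0 + c • v + (1 / ((n : ℝ) + 1)) • (f - x0)) atTop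
        (𝓝 (x0 + c • v + (0 : ℝ) • (f - x0))) :=
      tendsto_const_nhds.add (tendsto_one_div_add_atTop_nhds_zero_nat.smul_const _)
    rw [zero_smul, add_zero] at hlim
    refine hcl.mem_of_tendsto hlim (Eventually.of_forall fun n => ?_)
    have hn : (0 : ℝ) < (n : ℝ) + 1 := by positivity
    have hn1 : (1 : ℝ) / ((n : ℝ) + 1) ≤ 1 := by
      rw [div_le_one hn]; linarith [(Nat.cast_nonneg n : (0 : ℝ) ≤ n)]
    have := hc hx0 (h (c * ((n : ℝ) + 1))) (sub_nonneg.2 hn1) (by positivity)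
      (sub_add_cancel 1 (1 / ((n : ℝ) + 1)))
    convert this using 1
    have e : (1 / ((n : ℝ) + 1)) * (c * ((n : ℝ) + 1)) = c := by field_simp
    rw [smul_add, smul_smul, e]
    module
  have h1 := key 1
  have h2 := key (-1)
  have := h0.2.2 _ h1 _ h2 ⟨x0, ⟨1 / 2, 1 / 2, by norm_num, by norm_num, by norm_num, by module⟩, rfl⟩
  have h3 := this.1
  rw [Set.mem_singleton_iff, one_smul, add_eq_left] at h3
  exact hv h3

/-! ## The rim of a facet is uncountable -/

lemma rim_uncountable (hV : finrank ℝ V = 3) {S : Set V} (hc : Convex ℝ S) (hcl : IsClosed S)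
    {x0 : V} (h0 : IsFace S {x0}) (h1 : ∀ G, IsFace S G → G.Nonempty → dim G ≠ 1)
    {a : V} {b : ℝ} (ha : a ≠ 0) (hab : ∀ s ∈ S, ⟪a, s⟫ ≤ b)
    (hF : dim {s | s ∈ S ∧ ⟪a, s⟫ = b} = 2) :
    ¬ {x | x ∈ S ∧ ⟪a, x⟫ = b ∧ IsFace S {x}}.Countable := by
  intro hcount
  set F : Set V := {s | s ∈ S ∧ ⟪a, s⟫ = b} with hFdef
  have hFface : IsFace S F := isFace_exposed hc hab
  have hFne : F.Nonempty := by
    rw [Set.nonempty_iff_ne_empty]
    intro h
    rw [h, dim_eq, vectorSpan_empty, finrank_bot] at hF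
    exact absurd hF (by norm_num)
  obtain ⟨f0, hf0S, hf0⟩ := hFne
  let A : Submodule ℝ V := (Submodule.span ℝ {a})ᗮ
  have hA : finrank ℝ A = 2 := finrank_orth hV ha
  have hmemA : ∀ v : V, v ∈ A ↔ ⟪a, v⟫ = 0 := fun v =>
    Submodule.mem_orthogonal_singleton_iff_inner_right
  let φ : A →ᵃ[ℝ] V :=
    { toFun := fun v => f0 + (v : V)
      linear := A.subtype
      map_vadd' := by intro p v; simp [add_left_comm] }
  have hφ : ∀ v : A, φ v = f0 + (v : V) := fun v => rfl
  have hφc : Continuous φ := by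
    have : (φ : A → V) = fun v : A => f0 + (v : V) := rfl
    rw [this]; fun_prop
  have hφi : Function.Injective φ := by
    intro v w h
    rw [hφ, hφ, add_right_inj] at h
    exact Subtype.ext h
  have hφa : ∀ v : A, ⟪a, φ v⟫ = b := by
    intro v
    rw [hφ, inner_add_right, hf0, (hmemA v).1 v.2, add_zero]
  have hdimφ : ∀ G : Set A, dim (φ '' G) = finrank ℝ (vectorSpan ℝ G) := by
    intro G
    rw [dim_eq, ← AffineMap.map_vectorSpan]
    exact Submodule.finrank_map_subtype_eq A _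
  set F' : Set A := φ ⁻¹' S with hF'
  have hF'c : Convex ℝ F' := hc.affine_preimage φ
  have hF'cl : IsClosed F' := hcl.preimage hφc
  have himg : φ '' F' = F := by
    ext s
    constructor
    · rintro ⟨v, hv, rfl⟩
      exact ⟨hv, hφa v⟩
    · rintro ⟨hs, hsb⟩
      have hm : s - f0 ∈ A := by rw [hmemA, inner_sub_right, hsb, hf0, sub_self]
      refine ⟨⟨s - f0, hm⟩, ?_, ?_⟩
      · change f0 + (s - f0) ∈ S
        simpa using hs
      · rw [hφ]; simp
  have h0F' : (0 : A) ∈ F' := by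
    change f0 + ((0 : A) : V) ∈ S
    simpa using hf0S
  have hint : (interior F').Nonempty := by
    rw [hF'c.interior_nonempty_iff_affineSpan_eq_top,
      AffineSubspace.affineSpan_eq_top_iff_vectorSpan_eq_top_of_nonempty ℝ A A ⟨0, h0F'⟩]
    apply Submodule.eq_top_of_finrank_eq
    rw [← hdimφ, himg, hF, hA]
  have hfr : frontier F' ⊆ φ ⁻¹' {x | x ∈ S ∧ ⟪a, x⟫ = b ∧ IsFace S {x}} := by
    intro v hv
    have hvF : v ∈ F' := hF'cl.frontier_subset hv
    refine ⟨hvF, hφa v, ?_⟩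
    have hvi : v ∉ interior F' := hv.2
    obtain ⟨f, u, hf0', hfle, hfge⟩ := geometric_hahn_banach_of_nonempty_interior hF'c
      (convex_singleton v) (Set.disjoint_singleton_right.2 hvi) hint ⟨v, rfl⟩
    have hfv : f v = u := le_antisymm (hfle v hvF) (hfge v rfl)
    set G' : Set A := {w | w ∈ F' ∧ f w = u} with hG'
    have hGface : IsFace F (φ '' G') := by
      refine ⟨?_, ?_, ?_⟩
      · rintro _ ⟨w, hw, rfl⟩
        exact ⟨hw.1, hφa w⟩
      · apply Convex.affine_image φ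
        intro x hx y hy s t hs ht hst
        refine ⟨hF'c hx.1 hy.1 hs ht hst, ?_⟩
        rw [map_add, map_smul, map_smul, hx.2, hy.2, ← add_smul, hst, one_smul]
      · rintro x hx y hy ⟨z, ⟨s, t, hs, ht, hst, rfl⟩, w, hw, hwz⟩
        rw [← himg] at hx hy
        obtain ⟨x', hx', rfl⟩ := hx
        obtain ⟨y', hy', rfl⟩ := hy
        have hw2 : w = s • x' + t • y' := by
          apply hφi
          rw [hwz, Convex.combo_affine_apply hst]
        have e1 := hfle x' hx'
        have e2 := hfle y' hy'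
        have e3 := hw.2
        rw [hw2, map_add, map_smul, map_smul, smul_eq_mul, smul_eq_mul] at e3
        have e : s * (u - f x') + t * (u - f y') = 0 := by linear_combination u * hst - e3
        refine ⟨⟨x', ⟨hx', ?_⟩, rfl⟩, ⟨y', ⟨hy', ?_⟩, rfl⟩⟩
        · by_contra hne
          have h3 : f x' < u := lt_of_le_of_ne e1 hne
          nlinarith [mul_pos hs (sub_pos.2 h3), mul_nonneg ht.le (sub_nonneg.2 e2)]
        · by_contra hne
          have h3 : f y' < u := lt_of_le_of_ne e2 hne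
          nlinarith [mul_pos ht (sub_pos.2 h3), mul_nonneg hs.le (sub_nonneg.2 e1)]
    have hGS := hFface.trans hGface
    have hvG : φ v ∈ φ '' G' := ⟨v, ⟨hvF, hfv⟩, rfl⟩
    have hne1 := h1 _ hGS ⟨_, hvG⟩
    have hle1 : dim (φ '' G') ≤ 1 := by
      rw [hdimφ]
      have hker : vectorSpan ℝ G' ≤ LinearMap.ker (f : A →ₗ[ℝ] ℝ) := by
        rw [vectorSpan_def, Submodule.span_le]
        rintro _ ⟨x, hx, y, hy, rfl⟩
        simp only [vsub_eq_sub, SetLike.mem_coe, LinearMap.mem_ker, map_sub]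
        have e1 : f x = u := hx.2
        have e2 : f y = u := hy.2
        simp [e1, e2]
      have hlt : LinearMap.ker (f : A →ₗ[ℝ] ℝ) < ⊤ := by
        rw [lt_top_iff_ne_top]
        intro htop
        rw [LinearMap.ker_eq_top] at htop
        apply hf0'
        ext w
        exact congrArg (fun g : A →ₗ[ℝ] ℝ => g w) htop
      have h2 := Submodule.finrank_lt (lt_of_le_of_lt hker hlt).ne
      omega
    have hsing : φ '' G' = {φ v} := by
      refine Set.eq_singleton_iff_unique_mem.2 ⟨hvG, fun y hy => ?_⟩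
      by_contra hne
      have := one_le_dim hy hvG hne
      omega
    rw [hsing] at hGS
    exact hGS
  have hcnt : (frontier F').Countable := (hcount.preimage hφi).mono hfr
  have hrank : 1 < Module.rank ℝ A := by
    rw [← Module.finrank_eq_rank, hA]
    exact_mod_cast Nat.one_lt_two
  have hpc := (hcnt.isConnected_compl_of_one_lt_rank hrank).isPreconnected
  have hsub : (frontier F')ᶜ ⊆ interior F' := by
    apply hpc.subset_left_of_subset_union isOpen_interior hF'cl.isOpen_compl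
    · exact Set.disjoint_left.2 fun x hx hx' => hx' (interior_subset hx)
    · intro x hx
      by_cases h : x ∈ F'
      · left
        by_contra h2
        exact hx ⟨subset_closure h, h2⟩
      · right; exact h
    · obtain ⟨x, hx⟩ := hint
      exact ⟨x, fun h => h.2 hx, hx⟩
  have huniv : ∀ x, x ∈ F' := by
    intro x
    by_cases h : x ∈ frontier F'
    · exact hF'cl.frontier_subset h
    · exact interior_subset (hsub h)
  obtain ⟨v, hv⟩ : ∃ v : A, v ≠ 0 := by
    have : Nontrivial A := Module.nontrivial_of_finrank_pos (R := ℝ) (by omega)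
    exact exists_ne 0
  refine no_line hc hcl h0 f0 (v : V) (by simpa using hv) fun t => ?_
  exact huniv (t • v)

/-! ## Extreme points of faces of the polar -/

lemma convex_polar (S : Set V) : Convex ℝ (polar S) := by
  intro x hx y hy s t hs ht hst z hz
  rw [inner_add_right, inner_smul_right, inner_smul_right]
  have h1 := hx z hz
  have h2 := hy z hz
  nlinarith [mul_le_mul_of_nonneg_left h1 hs, mul_le_mul_of_nonneg_left h2 ht]

lemma isClosed_polar (S : Set V) : IsClosed (polar S) := by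
  have : polar S = ⋂ x ∈ S, {y | ⟪x, y⟫ ≤ 1} := by
    ext y; simp [polar]
  rw [this]
  exact isClosed_biInter fun x _ => isClosed_le (by fun_prop) continuous_const

/-- Points of the polar on which a linear function given by an interior point is bounded below
are bounded. -/
lemma norm_bound {S : Set V} {q : V} {r : ℝ} (hr : 0 < r) (hq : Metric.closedBall q r ⊆ S)
    {y : V} (hy : y ∈ polar S) : r * ‖y‖ ≤ 1 - ⟪q, y⟫ := by
  rcases eq_or_ne y 0 with rfl | h
  · simp
  · have hy0 : 0 < ‖y‖ := norm_pos_iff.2 h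
    have hmem : q + (r / ‖y‖) • y ∈ S := by
      apply hq
      rw [Metric.mem_closedBall, dist_eq_norm, add_sub_cancel_left, norm_smul, Real.norm_eq_abs,
        abs_of_pos (by positivity), div_mul_cancel₀ _ hy0.ne']
    have := hy _ hmem
    rw [inner_add_left, real_inner_smul_left, real_inner_self_eq_norm_sq] at this
    have e : r / ‖y‖ * ‖y‖ ^ 2 = r * ‖y‖ := by field_simp
    rw [e] at this
    linarith

lemma exists_ext {S : Set V} {q x c : V} (hq : q ∈ interior S) (hxS : x ∈ S)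
    (hc : c ∈ polar S) (hcx : ⟪c, x⟫ = 1) :
    ∃ z, IsFace (polar S) {z} ∧ ⟪z, x⟫ = 1 ∧ ⟪c, q⟫ ≤ ⟪z, q⟫ := by
  obtain ⟨r, hr, hball⟩ : ∃ r > 0, Metric.closedBall q r ⊆ S :=
    Metric.nhds_basis_closedBall.mem_iff.1 (mem_interior_iff_mem_nhds.1 hq)
  set K : Set V := {y | y ∈ polar S ∧ ⟪y, x⟫ = 1 ∧ ⟪c, q⟫ ≤ ⟪y, q⟫} with hK
  have hcq : Continuous fun y : V => ⟪y, q⟫ := by fun_prop
  have hcx' : Continuous fun y : V => ⟪y, x⟫ := by fun_prop
  have hKcl : IsClosed K :=
    (isClosed_polar S).inter ((isClosed_eq hcx' continuous_const).inter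
      (isClosed_le continuous_const hcq))
  have hKb : K ⊆ Metric.closedBall 0 ((1 - ⟪c, q⟫) / r) := by
    intro y hy
    rw [mem_closedBall_zero_iff, le_div_iff₀ hr]
    have := norm_bound hr hball hy.1
    rw [real_inner_comm] at this
    linarith [hy.2.2]
  have hKc : IsCompact K := (isCompact_closedBall _ _).of_isClosed_subset hKcl hKb
  have hKne : K.Nonempty := ⟨c, hc, hcx, le_rfl⟩
  obtain ⟨m, hmK, hmax⟩ := hKc.exists_isMaxOn hKne (f := fun y : V => ⟪y, q⟫)
    hcq.continuousOn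
  set K' : Set V := {y | y ∈ polar S ∧ ⟪y, x⟫ = 1 ∧ ⟪y, q⟫ = ⟪m, q⟫} with hK'
  have hK'cl : IsClosed K' :=
    (isClosed_polar S).inter ((isClosed_eq hcx' continuous_const).inter
      (isClosed_eq hcq continuous_const))
  have hK'K : K' ⊆ K := fun y hy => ⟨hy.1, hy.2.1, hy.2.2 ▸ hmK.2.2⟩
  have hK'c : IsCompact K' := hKc.of_isClosed_subset hK'cl hK'K
  obtain ⟨z, hz⟩ := hK'c.extremePoints_nonempty ⟨m, hmK.1, hmK.2.1, rfl⟩
  have hzK := hz.1
  refine ⟨z, ⟨?_, convex_singleton z, ?_⟩, hzK.2.1, (hK'K hzK).2.2⟩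
  · rintro _ rfl
    exact hzK.1
  · rintro y1 hy1 y2 hy2 ⟨w, hw, rfl⟩
    have hw' := hw
    obtain ⟨s, t, hs, ht, hst, hweq⟩ := hw
    have hx1 : ⟪y1, x⟫ ≤ 1 := by rw [real_inner_comm]; exact hy1 x hxS
    have hx2 : ⟪y2, x⟫ ≤ 1 := by rw [real_inner_comm]; exact hy2 x hxS
    have hzx := hzK.2.1
    have hzq := hzK.2.2
    rw [← hweq, inner_add_left, real_inner_smul_left, real_inner_smul_left] at hzx hzq
    have e : s * (1 - ⟪y1, x⟫) + t * (1 - ⟪y2, x⟫) = 0 := by linear_combination hst - hzx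
    have g1 : ⟪y1, x⟫ = 1 := by
      by_contra hne
      have h3 : ⟪y1, x⟫ < 1 := lt_of_le_of_ne hx1 hne
      nlinarith [mul_pos hs (sub_pos.2 h3), mul_nonneg ht.le (sub_nonneg.2 hx2)]
    have g2 : ⟪y2, x⟫ = 1 := by
      by_contra hne
      have h3 : ⟪y2, x⟫ < 1 := lt_of_le_of_ne hx2 hne
      nlinarith [mul_pos ht (sub_pos.2 h3), mul_nonneg hs.le (sub_nonneg.2 hx1)]
    have hm1 : ⟪y1, q⟫ ≤ ⟪m, q⟫ := by
      by_cases h : ⟪c, q⟫ ≤ ⟪y1, q⟫
      · exact hmax ⟨hy1, g1, h⟩
      · linarith [hmK.2.2]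
    have hm2 : ⟪y2, q⟫ ≤ ⟪m, q⟫ := by
      by_cases h : ⟪c, q⟫ ≤ ⟪y2, q⟫
      · exact hmax ⟨hy2, g2, h⟩
      · linarith [hmK.2.2]
    have e' : s * (⟪m, q⟫ - ⟪y1, q⟫) + t * (⟪m, q⟫ - ⟪y2, q⟫) = 0 := by
      linear_combination ⟪m, q⟫ * hst - hzq
    have k1 : ⟪y1, q⟫ = ⟪m, q⟫ := by
      by_contra hne
      have h3 : ⟪y1, q⟫ < ⟪m, q⟫ := lt_of_le_of_ne hm1 hne
      nlinarith [mul_pos hs (sub_pos.2 h3), mul_nonneg ht.le (sub_nonneg.2 hm2)]
    have k2 : ⟪y2, q⟫ = ⟪m, q⟫ := by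
      by_contra hne
      have h3 : ⟪y2, q⟫ < ⟪m, q⟫ := lt_of_le_of_ne hm2 hne
      nlinarith [mul_pos ht (sub_pos.2 h3), mul_nonneg hs.le (sub_nonneg.2 hm1)]
    have hy1K : y1 ∈ K' := ⟨hy1, g1, k1⟩
    have hy2K : y2 ∈ K' := ⟨hy2, g2, k2⟩
    have r1 := hz.2 hy1K hy2K hw'
    have r2 := hz.2 hy2K hy1K (by rw [openSegment_symm]; exact hw')
    exact ⟨r1, r2⟩

/-- One half of the bipolar theorem. -/
lemma mem_of_bipolar {S : Set V} (hc : Convex ℝ S) (hcl : IsClosed S) (h0S : (0 : V) ∈ S) {p : V}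
    (hp : ∀ y ∈ polar S, ⟪p, y⟫ ≤ 1) : p ∈ S := by
  by_contra hpS
  obtain ⟨f, u, hfs, hfp⟩ := geometric_hahn_banach_closed_point hc hcl hpS
  have hu : 0 < u := by simpa using hfs 0 h0S
  set g : V := (InnerProductSpace.toDual ℝ V).symm f with hg
  have hgf : ∀ v, ⟪g, v⟫ = f v := fun v => InnerProductSpace.toDual_symm_apply
  have hy : u⁻¹ • g ∈ polar S := by
    intro s hs
    rw [inner_smul_right, real_inner_comm, hgf, inv_mul_le_iff₀ hu, mul_one]
    exact (hfs s hs).le
  have := hp _ hy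
  rw [inner_smul_right, real_inner_comm, hgf, inv_mul_le_iff₀ hu, mul_one] at this
  linarith

/-! ## Every rim point lies on a second facet -/

lemma second_facet (hV : finrank ℝ V = 3) {S : Set V} (hc : Convex ℝ S) (hcl : IsClosed S)
    (h0S : (0 : V) ∈ S) (hint : (interior S).Nonempty)
    (h1 : ∀ G, IsFace S G → G.Nonempty → dim G ≠ 1)
    (hS : ∀ x, IsFace S {x} → ∃ c : V, ∀ s ∈ S, s ≠ x → ⟪c, s⟫ < ⟪c, x⟫)
    (hT : ∀ z, z ≠ 0 → IsFace (polar S) {z} →
      ∃ p : V, ∀ y ∈ polar S, y ≠ z → ⟪p, y⟫ < ⟪p, z⟫)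
    {a : V} {b : ℝ} (ha : a ≠ 0) (hab : ∀ s ∈ S, ⟪a, s⟫ ≤ b)
    (hF : dim {s | s ∈ S ∧ ⟪a, s⟫ = b} = 2) {x : V} (hxS : x ∈ S) (hxF : ⟪a, x⟫ = b)
    (hx : IsFace S {x}) (hx0 : x ≠ 0) :
    ∃ (g : V) (β : ℝ), g ≠ 0 ∧ (∀ s ∈ S, ⟪g, s⟫ ≤ β) ∧ ⟪g, x⟫ = β ∧
      dim {s | s ∈ S ∧ ⟪g, s⟫ = β} = 2 ∧
      {s | s ∈ S ∧ ⟪g, s⟫ = β} ≠ {s | s ∈ S ∧ ⟪a, s⟫ = b} := by
  -- a face given by a nonzero functional and containing two points is two-dimensional
  have two : ∀ (g : V) (β : ℝ), g ≠ 0 → (∀ s ∈ S, ⟪g, s⟫ ≤ β) → ∀ y ∈ S, ⟪g, y⟫ = β →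
      ∀ y' ∈ S, ⟪g, y'⟫ = β → y ≠ y' → dim {s | s ∈ S ∧ ⟪g, s⟫ = β} = 2 := by
    intro g β hg hgs y hy hyβ y' hy' hyβ' hne
    have e1 : dim {s | s ∈ S ∧ ⟪g, s⟫ = β} ≤ 2 := dim_le_two hV hg (fun s hs => hs.2)
    have e2 : 1 ≤ dim {s | s ∈ S ∧ ⟪g, s⟫ = β} := one_le_dim ⟨hy, hyβ⟩ ⟨hy', hyβ'⟩ hne
    have e3 := h1 _ (isFace_exposed hc hgs) ⟨y, hy, hyβ⟩
    omega
  have hb0 : 0 ≤ b := by simpa using hab 0 h0S
  -- the functional exposing `x`
  obtain ⟨c0, hc0⟩ := hS x hx
  have hc0x : 0 < ⟪c0, x⟫ := by simpa using hc0 0 h0S hx0.symm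
  obtain ⟨c, hcx, hcs⟩ : ∃ c : V, ⟪c, x⟫ = 1 ∧ ∀ s ∈ S, s ≠ x → ⟪c, s⟫ < 1 := by
    refine ⟨⟪c0, x⟫⁻¹ • c0, ?_, fun s hs hne => ?_⟩
    · rw [real_inner_smul_left, inv_mul_cancel₀ hc0x.ne']
    · rw [real_inner_smul_left, inv_mul_lt_iff₀ hc0x, mul_one]
      exact hc0 s hs hne
  have hcT : c ∈ polar S := by
    intro s hs
    rw [real_inner_comm]
    by_cases h : s = x
    · rw [h, hcx]
    · exact (hcs s hs h).le
  -- from a vertex `z` of the polar on the face dual to `x` and a second point on this face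
  -- we get a facet
  have fromz : ∀ z, IsFace (polar S) {z} → ⟪z, x⟫ = 1 →
      (∃ w ∈ polar S, w ≠ z ∧ ⟪w, x⟫ = 1) →
      z ≠ 0 ∧ (∀ s ∈ S, ⟪z, s⟫ ≤ 1) ∧ dim {s | s ∈ S ∧ ⟪z, s⟫ = 1} = 2 := by
    rintro z hz hzx ⟨w, hw, hwz, hwx⟩
    have hz0 : z ≠ 0 := by
      rintro rfl
      rw [inner_zero_left] at hzx
      exact zero_ne_one hzx
    have hzT : z ∈ polar S := hz.1 rfl
    have hzs : ∀ s ∈ S, ⟪z, s⟫ ≤ 1 := fun s hs => by rw [real_inner_comm]; exact hzT s hs
    refine ⟨hz0, hzs, ?_⟩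
    obtain ⟨p0, hp0⟩ := hT z hz0 hz
    have h0T : (0 : V) ∈ polar S := by intro s _; simp
    have hp0z : 0 < ⟪p0, z⟫ := by simpa using hp0 0 h0T hz0.symm
    obtain ⟨p, hpz, hps⟩ : ∃ p : V, ⟪p, z⟫ = 1 ∧ ∀ s ∈ polar S, s ≠ z → ⟪p, s⟫ < 1 := by
      refine ⟨⟪p0, z⟫⁻¹ • p0, ?_, fun s hs hne => ?_⟩
      · rw [real_inner_smul_left, inv_mul_cancel₀ hp0z.ne']
      · rw [real_inner_smul_left, inv_mul_lt_iff₀ hp0z, mul_one]
        exact hp0 s hs hne
    have hpS : p ∈ S := by
      apply mem_of_bipolar hc hcl h0S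
      intro y hy
      by_cases h : y = z
      · rw [h, hpz]
      · exact (hps y hy h).le
    have hpx : p ≠ x := by
      rintro rfl
      have := hps w hw hwz
      rw [real_inner_comm, hwx] at this
      exact lt_irrefl _ this
    exact two z 1 hz0 hzs p hpS (by rw [real_inner_comm]; exact hpz) x hxS hzx hpx
  rcases hb0.eq_or_lt with hb | hb
  · -- `0 ∈ F`
    subst hb
    obtain ⟨q, hq⟩ := hint
    obtain ⟨z, hz, hzx, -⟩ := exists_ext hq hxS hcT hcx
    have hzT : z ∈ polar S := hz.1 rfl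
    obtain ⟨k1, k2, k3⟩ := fromz z hz hzx ⟨a + z, by
        intro s hs
        rw [inner_add_right, real_inner_comm]
        have e1 := hab s hs
        have e2 := hzT s hs
        linarith, by
        intro h
        exact ha (by simpa using h), by rw [inner_add_left, hxF, hzx, zero_add]⟩
    refine ⟨z, 1, k1, k2, hzx, k3, ?_⟩
    intro h
    have h0 : (0 : V) ∈ {s | s ∈ S ∧ ⟪a, s⟫ = 0} := ⟨h0S, inner_zero_right _⟩
    rw [← h] at h0
    have := h0.2
    rw [inner_zero_right] at this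
    exact zero_ne_one this
  · -- `0 ∉ F`; normalise `a`
    obtain ⟨a1, ha1, ha1F⟩ : ∃ a1 : V, a1 ≠ 0 ∧ ∀ s, b * ⟪a1, s⟫ = ⟪a, s⟫ := by
      refine ⟨b⁻¹ • a, smul_ne_zero (inv_ne_zero hb.ne') ha, fun s => ?_⟩
      rw [real_inner_smul_left, ← mul_assoc, mul_inv_cancel₀ hb.ne', one_mul]
    have ha1s : ∀ s ∈ S, ⟪a1, s⟫ ≤ 1 := by
      intro s hs
      have := hab s hs
      rw [← ha1F] at this
      nlinarith
    have heq : ∀ s, ⟪a, s⟫ = b ↔ ⟪a1, s⟫ = 1 := by
      intro s
      rw [← ha1F]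
      constructor
      · intro h
        have : b * (⟪a1, s⟫ - 1) = 0 := by linear_combination h
        rcases mul_eq_zero.1 this with h | h
        · exact absurd h hb.ne'
        · linarith
      · intro h; rw [h, mul_one]
    have ha1x : ⟪a1, x⟫ = 1 := (heq x).1 hxF
    have ha1T : a1 ∈ polar S := fun s hs => by rw [real_inner_comm]; exact ha1s s hs
    by_cases hcase : ∃ q ∈ interior S, ⟪a1, q⟫ < ⟪c, q⟫
    · obtain ⟨q, hq, hqc⟩ := hcase
      obtain ⟨z, hz, hzx, hzq⟩ := exists_ext hq hxS hcT hcx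
      have hza : a1 ≠ z := by
        rintro rfl
        linarith
      obtain ⟨k1, k2, k3⟩ := fromz z hz hzx ⟨a1, ha1T, hza, ha1x⟩
      refine ⟨z, 1, k1, k2, hzx, k3, ?_⟩
      intro h
      -- both functionals are `1` on a two-dimensional set
      have hv : ∀ s ∈ {s | s ∈ S ∧ ⟪a, s⟫ = b}, ⟪a1 - z, s⟫ = 0 := by
        intro s hs
        have e1 := (heq s).1 hs.2
        rw [← h] at hs
        rw [inner_sub_left, e1, hs.2, sub_self]
      have hd : a1 - z ≠ 0 := sub_ne_zero.2 hza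
      -- the span of the facet is everything
      have hle1 := vectorSpan_le_orth hv
      have hle2 := vectorSpan_le_orth (G := {s | s ∈ S ∧ ⟪a, s⟫ = b}) (a := a) (b := b)
        (fun s hs => hs.2)
      have f1 := finrank_orth hV hd
      have f2 := finrank_orth hV ha
      rw [dim_eq] at hF
      have g1 := Submodule.eq_of_le_of_finrank_eq hle1 (by rw [hF, f1])
      have g2 := Submodule.eq_of_le_of_finrank_eq hle2 (by rw [hF, f2])
      -- `x` is orthogonal to `a1 - z`
      have hx' : x ∈ (Submodule.span ℝ {a1 - z})ᗮ := by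
        rw [Submodule.mem_orthogonal_singleton_iff_inner_right]
        exact hv x ⟨hxS, hxF⟩
      rw [← g1, g2, Submodule.mem_orthogonal_singleton_iff_inner_right, hxF] at hx'
      exact hb.ne' hx'
    · push Not at hcase
      have hall : ∀ s ∈ S, ⟪c - a1, s⟫ ≤ 0 := by
        intro s hs
        have hcl' : IsClosed {s : V | ⟪c - a1, s⟫ ≤ 0} :=
          isClosed_le (by fun_prop) continuous_const
        have hsub : closure (interior S) ⊆ {s : V | ⟪c - a1, s⟫ ≤ 0} := by
          apply closure_minimal _ hcl'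
          intro q hq
          have := hcase q hq
          rw [Set.mem_ofPred_eq, inner_sub_left]
          linarith
        apply hsub
        rw [hc.closure_interior_eq_closure_of_nonempty_interior hint]
        exact subset_closure hs
      have hvne : c - a1 ≠ 0 := by
        intro h
        rw [sub_eq_zero] at h
        -- then `F = {x}`
        have hsing : {s | s ∈ S ∧ ⟪a, s⟫ = b} = {x} := by
          refine Set.eq_singleton_iff_unique_mem.2 ⟨⟨hxS, hxF⟩, fun y hy => ?_⟩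
          by_contra hne
          have := hcs y hy.1 hne
          rw [h, (heq y).1 hy.2] at this
          exact lt_irrefl _ this
        rw [hsing, dim_eq, vectorSpan_singleton, finrank_bot] at hF
        exact absurd hF (by norm_num)
      have hvx : ⟪c - a1, x⟫ = 0 := by rw [inner_sub_left, hcx, ha1x, sub_self]
      refine ⟨c - a1, 0, hvne, hall, hvx,
        two _ 0 hvne hall 0 h0S (inner_zero_right _) x hxS hvx hx0.symm, ?_⟩
      intro h
      have h0 : (0 : V) ∈ {s | s ∈ S ∧ ⟪c - a1, s⟫ = 0} := ⟨h0S, inner_zero_right _⟩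
      rw [h] at h0
      have := h0.2
      rw [inner_zero_right] at this
      exact hb.ne this

/-! ## The three-dimensional case -/

theorem core (hV : finrank ℝ V = 3) {S : Set V} (hc : Convex ℝ S) (hcl : IsClosed S)
    (h0S : (0 : V) ∈ S) (hint : (interior S).Nonempty)
    (h1 : ∀ G, IsFace S G → G.Nonempty → dim G ≠ 1)
    {x0 : V} (h0 : IsFace S {x0})
    (hS : ∀ x, IsFace S {x} → ∃ c : V, ∀ s ∈ S, s ≠ x → ⟪c, s⟫ < ⟪c, x⟫)
    (hT : ∀ z, z ≠ 0 → IsFace (polar S) {z} →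
      ∃ p : V, ∀ y ∈ polar S, y ≠ z → ⟪p, y⟫ < ⟪p, z⟫)
    {a : V} {b : ℝ} (ha : a ≠ 0) (hab : ∀ s ∈ S, ⟪a, s⟫ ≤ b)
    (hF : dim {s | s ∈ S ∧ ⟪a, s⟫ = b} = 2) : False := by
  classical
  obtain ⟨q, hq⟩ := hint
  have hcount := countable_facets (S := S) (q := q) hV
  set 𝒢 : Set V := {g : V | (∀ s ∈ S, ⟪g, s - q⟫ ≤ 1) ∧ dim {s | s ∈ S ∧ ⟪g, s - q⟫ = 1} = 2}
    with h𝒢
  set R : Set V := {x | x ∈ S ∧ ⟪a, x⟫ = b ∧ IsFace S {x}} with hR
  have hRunc : ¬ R.Countable := rim_uncountable hV hc hcl h0 h1 ha hab hF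
  have key : ∀ x ∈ R \ {0}, ∃ g ∈ 𝒢, ⟪g, x - q⟫ = 1 ∧
      {s | s ∈ S ∧ ⟪g, s - q⟫ = 1} ≠ {s | s ∈ S ∧ ⟪a, s⟫ = b} := by
    rintro x ⟨⟨hxS, hxF, hx⟩, hx0⟩
    obtain ⟨g, β, hg0, hgs, hgx, hgd, hgne⟩ :=
      second_facet hV hc hcl h0S ⟨q, hq⟩ h1 hS hT ha hab hF hxS hxF hx hx0
    have hgq : ⟪g, q⟫ < β := by
      refine lt_of_le_of_ne (hgs q (interior_subset hq)) fun h => ?_
      -- move from `q` in direction `g`
      have hU : ∀ᶠ t : ℝ in 𝓝 (0 : ℝ), q + t • g ∈ interior S := by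
        have hcont : Continuous fun t : ℝ => q + t • g := by fun_prop
        refine hcont.continuousAt.eventually_mem (isOpen_interior.mem_nhds ?_)
        simpa using hq
      have hU' : ∀ᶠ t : ℝ in 𝓝[>] (0 : ℝ), q + t • g ∈ interior S :=
        hU.filter_mono nhdsWithin_le_nhds
      obtain ⟨t, ht, ht0⟩ := (hU'.and self_mem_nhdsWithin).exists
      have := hgs _ (interior_subset ht)
      rw [inner_add_right, inner_smul_right, h] at this
      have hpos : 0 < ⟪g, g⟫ := real_inner_self_pos.2 hg0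
      have ht0' : (0 : ℝ) < t := ht0
      nlinarith [mul_pos ht0' hpos]
    have hγ : 0 < β - ⟪g, q⟫ := sub_pos.2 hgq
    have hval : ∀ s, ⟪(β - ⟪g, q⟫)⁻¹ • g, s - q⟫ = (⟪g, s⟫ - ⟪g, q⟫) / (β - ⟪g, q⟫) := by
      intro s
      rw [real_inner_smul_left, inner_sub_right, div_eq_inv_mul]
    have hiff : ∀ s, ⟪(β - ⟪g, q⟫)⁻¹ • g, s - q⟫ = 1 ↔ ⟪g, s⟫ = β := by
      intro s
      rw [hval, div_eq_one_iff_eq hγ.ne']
      constructor <;> intro h <;> linarith
    have hset : {s | s ∈ S ∧ ⟪(β - ⟪g, q⟫)⁻¹ • g, s - q⟫ = 1} = {s | s ∈ S ∧ ⟪g, s⟫ = β} := by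
      ext s
      exact and_congr_right fun _ => hiff s
    refine ⟨(β - ⟪g, q⟫)⁻¹ • g, ⟨fun s hs => ?_, by rw [hset]; exact hgd⟩, (hiff x).2 hgx,
      by rw [hset]; exact hgne⟩
    rw [hval, div_le_one hγ]
    linarith [hgs s hs]
  choose! γ hγ𝒢 hγx hγne using key
  have hinj : Set.InjOn γ (R \ {0}) := by
    intro x hx y hy hxy
    by_contra hne
    set g := γ x with hg
    have hgx : ⟪g, x - q⟫ = 1 := hγx x hx
    have hgy := hγx y hy
    rw [← hxy] at hgy
    have hgs : ∀ s ∈ S, ⟪g, s - q⟫ ≤ 1 := (hγ𝒢 x hx).1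
    have hgne := hγne x hx
    set G : Set V := {s | s ∈ S ∧ ⟪g, s - q⟫ = 1} with hG
    have hGe : G = {s | s ∈ S ∧ ⟪g, s⟫ = 1 + ⟪g, q⟫} := by
      ext s
      simp only [hG, Set.mem_ofPred_eq, inner_sub_right]
      refine and_congr_right fun _ => ?_
      constructor <;> intro h <;> linarith
    have hGface : IsFace S G := by
      rw [hGe]
      refine isFace_exposed hc fun s hs => ?_
      have := hgs s hs
      rw [inner_sub_right] at this
      linarith
    have hH : IsFace S (G ∩ {s | s ∈ S ∧ ⟪a, s⟫ = b}) := hGface.inter (isFace_exposed hc hab)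
    have hxH : x ∈ G ∩ {s | s ∈ S ∧ ⟪a, s⟫ = b} := ⟨⟨hx.1.1, hgx⟩, ⟨hx.1.1, hx.1.2.1⟩⟩
    have hyH : y ∈ G ∩ {s | s ∈ S ∧ ⟪a, s⟫ = b} := ⟨⟨hy.1.1, hgy⟩, ⟨hy.1.1, hy.1.2.1⟩⟩
    have d1 := one_le_dim hxH hyH hne
    have d2 := h1 _ hH ⟨x, hxH⟩
    have d3 : dim (G ∩ {s | s ∈ S ∧ ⟪a, s⟫ = b}) ≤ 2 := dim_le_two hV ha (fun s hs => hs.2.2)
    have d4 : dim (G ∩ {s | s ∈ S ∧ ⟪a, s⟫ = b}) = 2 := by omega
    have hg0 : g ≠ 0 := by
      intro h
      rw [h, inner_zero_left] at hgx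
      exact zero_ne_one hgx
    rw [dim_eq] at d4
    have l1 := vectorSpan_le_orth (G := G ∩ {s | s ∈ S ∧ ⟪a, s⟫ = b}) (a := a) (b := b)
      (fun s hs => hs.2.2)
    have l2 := vectorSpan_le_orth (G := G ∩ {s | s ∈ S ∧ ⟪a, s⟫ = b}) (a := g)
      (b := 1 + ⟪g, q⟫) (fun s hs => by rw [hGe] at hs; exact hs.1.2)
    have g1 := Submodule.eq_of_le_of_finrank_eq l1 (by rw [d4, finrank_orth hV ha])
    have g2 := Submodule.eq_of_le_of_finrank_eq l2 (by rw [d4, finrank_orth hV hg0])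
    -- the two hyperplanes through `x` agree
    apply hgne
    ext s
    refine and_congr_right fun _ => ?_
    have m1 : s - x ∈ (Submodule.span ℝ {a})ᗮ ↔ s - x ∈ (Submodule.span ℝ {g})ᗮ := by
      rw [← g1, ← g2]
    rw [Submodule.mem_orthogonal_singleton_iff_inner_right,
      Submodule.mem_orthogonal_singleton_iff_inner_right, inner_sub_right, inner_sub_right,
      hx.1.2.1] at m1
    rw [inner_sub_right] at hgx ⊢
    constructor
    · intro h
      have := m1.2 (by linarith)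
      linarith
    · intro h
      have := m1.1 (by linarith)
      linarith
  have hcR : (R \ {0}).Countable :=
    Set.MapsTo.countable_of_injOn (fun x hx => hγ𝒢 x hx) hinj hcount
  exact hRunc ((hcR.union (Set.countable_singleton 0)).mono (by
    intro x hx
    by_cases h : x = 0
    · right; exact h
    · left; exact ⟨hx, h⟩))

end Core

/-! ## Reduction to the span -/

section Reduction

variable {E : Type*} [NormedAddCommGroup E] [InnerProductSpace ℝ E] [FiniteDimensional ℝ E]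

theorem main {S : Set E} (hc : Convex ℝ S) (hcl : IsClosed S) (h0S : (0 : E) ∈ S)
    (hsig : signature S = {0, 2, 3}) (hfe : FaciallyExposed S) :
    ¬ FaciallyExposed (polar S) := by
  intro hfp
  have hmono : ∀ F : Set E, F ⊆ S → dim F ≤ dim S := by
    intro F hF
    rw [dim_eq, dim_eq]
    exact Submodule.finrank_mono (vectorSpan_mono ℝ hF)
  have hSface : IsFace S S := ⟨subset_rfl, hc, fun x hx y hy _ => ⟨hx, hy⟩⟩
  have hsig' : ∀ G, IsFace S G → G.Nonempty → dim G = 0 ∨ dim G = 2 ∨ dim G = 3 := by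
    intro G hG hne
    have : dim G ∈ signature S := ⟨G, hne, hG, rfl⟩
    rw [hsig] at this
    simpa using this
  obtain ⟨F3, hF3ne, hF3, hd3⟩ : 3 ∈ signature S := by rw [hsig]; simp
  obtain ⟨F2, hF2ne, hF2, hd2⟩ : 2 ∈ signature S := by rw [hsig]; simp
  obtain ⟨F0, ⟨x0, hx0⟩, hF0, hd0⟩ : 0 ∈ signature S := by rw [hsig]; simp
  have hdS : dim S = 3 := by
    have h1 := hmono F3 hF3.1
    have h2 := hsig' S hSface ⟨0, h0S⟩
    omega
  have hF0' : F0 = {x0} := by
    refine Set.eq_singleton_iff_unique_mem.2 ⟨hx0, fun y hy => ?_⟩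
    by_contra hne
    have := one_le_dim hy hx0 hne
    omega
  subst hF0'
  -- the linear span
  set W : Submodule ℝ E := Submodule.span ℝ S with hW
  have hWspan : vectorSpan ℝ S = W := by
    rw [vectorSpan_eq_span_vsub_set_right ℝ h0S]
    simp [hW]
  have hWd : finrank ℝ W = 3 := by rw [← hWspan, ← dim_eq, hdS]
  have hSW : ∀ s ∈ S, s ∈ W := fun s hs => Submodule.subset_span hs
  let ι : W → E := Subtype.val
  have himg : ∀ G' : Set W, dim (Subtype.val '' G' : Set E) = dim G' := by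
    intro G'
    rw [dim_eq, dim_eq]
    have h := AffineMap.map_vectorSpan (W.subtype.toAffineMap) (s := G')
    have h2 : (W.subtype.toAffineMap : W → E) '' G' = Subtype.val '' G' := rfl
    rw [h2] at h
    rw [← h]
    exact Submodule.finrank_map_subtype_eq W _
  set S' : Set W := Subtype.val ⁻¹' S with hS'
  have hS'S : (Subtype.val '' S' : Set E) = S := by
    ext s
    constructor
    · rintro ⟨w, hw, rfl⟩; exact hw
    · intro hs; exact ⟨⟨s, hSW s hs⟩, hs, rfl⟩
  have hc' : Convex ℝ S' := by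
    intro x hx y hy s t hs ht hst
    exact hc hx hy hs ht hst
  have hcl' : IsClosed S' := hcl.preimage continuous_subtype_val
  have h0S' : (0 : W) ∈ S' := h0S
  have hint : (interior S').Nonempty := by
    rw [hc'.interior_nonempty_iff_affineSpan_eq_top,
      AffineSubspace.affineSpan_eq_top_iff_vectorSpan_eq_top_of_nonempty ℝ W W ⟨0, h0S'⟩]
    apply Submodule.eq_top_of_finrank_eq
    rw [← dim_eq, ← himg, hS'S, hdS, hWd]
  have hup : ∀ G' : Set W, IsFace S' G' → IsFace S (Subtype.val '' G') := by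
    intro G' hG'
    refine ⟨?_, ?_, ?_⟩
    · rintro _ ⟨w, hw, rfl⟩
      exact hG'.1 hw
    · rintro _ ⟨x, hx, rfl⟩ _ ⟨y, hy, rfl⟩ s t hs ht hst
      exact ⟨s • x + t • y, hG'.2.1 hx hy hs ht hst, rfl⟩
    · rintro x hx y hy ⟨z, ⟨s, t, hs, ht, hst, rfl⟩, w, hw, hwz⟩
      have hxW := hSW x hx
      have hyW := hSW y hy
      have hw2 : w = s • (⟨x, hxW⟩ : W) + t • (⟨y, hyW⟩ : W) := Subtype.ext hwz
      obtain ⟨r1, r2⟩ := hG'.2.2 ⟨x, hxW⟩ hx ⟨y, hyW⟩ hy
        ⟨w, ⟨s, t, hs, ht, hst, hw2.symm⟩, hw⟩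
      exact ⟨⟨_, r1, rfl⟩, ⟨_, r2, rfl⟩⟩
  have h1' : ∀ G', IsFace S' G' → G'.Nonempty → dim G' ≠ 1 := by
    intro G' hG' hne h
    have := hsig' _ (hup G' hG') (hne.image _)
    rw [himg, h] at this
    omega
  have hx0W : x0 ∈ W := hSW x0 (hF0.1 rfl)
  have h0' : IsFace S' {(⟨x0, hx0W⟩ : W)} := by
    refine ⟨?_, convex_singleton _, ?_⟩
    · rintro _ rfl
      exact hF0.1 rfl
    · rintro x hx y hy ⟨z, ⟨s, t, hs, ht, hst, hz⟩, hz2⟩
      have e : s • (x : E) + t • (y : E) = x0 := by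
        rw [Set.mem_singleton_iff] at hz2
        rw [hz2] at hz
        exact congrArg Subtype.val hz
      obtain ⟨r1, r2⟩ := hF0.2.2 x hx y hy ⟨x0, ⟨s, t, hs, ht, hst, e⟩, rfl⟩
      exact ⟨Subtype.ext r1, Subtype.ext r2⟩
  have hproj : ∀ (v : E) (w : W), ⟪W.orthogonalProjectionOnto v, w⟫ = ⟪v, (w : E)⟫ := fun v w =>
    Submodule.inner_orthogonalProjectionOnto_eq_of_mem_right w v
  have hexp' : ∀ x, IsFace S' {x} → ∃ c : W, ∀ s ∈ S', s ≠ x → ⟪c, s⟫ < ⟪c, x⟫ := by
    intro x hx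
    have hxf := hup _ hx
    rw [Set.image_singleton] at hxf
    obtain ⟨a, b, -, hab, hF⟩ := hfe _ hxf ⟨_, rfl⟩ (by
      intro h
      rw [← h, dim_eq, vectorSpan_singleton, finrank_bot] at hdS
      exact absurd hdS (by norm_num))
    refine ⟨W.orthogonalProjectionOnto a, fun s hs hne => ?_⟩
    rw [hproj, hproj]
    have hxb : ⟪a, (x : E)⟫ = b := by
      have : (x : E) ∈ ({(x : E)} : Set E) := rfl
      rw [hF] at this
      exact this.2
    rw [hxb]
    refine lt_of_le_of_ne (hab s hs) fun h => hne ?_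
    have : (s : E) ∈ ({(x : E)} : Set E) := by rw [hF]; exact ⟨hs, h⟩
    exact Subtype.ext this
  have hpol : ∀ y : E, y ∈ polar S ↔ W.orthogonalProjectionOnto y ∈ polar S' := by
    intro y
    constructor
    · intro hy w hw
      rw [real_inner_comm, hproj, real_inner_comm]
      exact hy w hw
    · intro hy s hs
      have := hy ⟨s, hSW s hs⟩ hs
      rw [real_inner_comm, hproj, real_inner_comm] at this
      exact this
  have hexpT' : ∀ z, z ≠ 0 → IsFace (polar S') {z} →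
      ∃ p : W, ∀ y ∈ polar S', y ≠ z → ⟪p, y⟫ < ⟪p, z⟫ := by
    intro z hz0 hz
    set Z : Set E := {y | W.orthogonalProjectionOnto y = z} with hZ
    have hprz : W.orthogonalProjectionOnto (z : E) = z :=
      Submodule.orthogonalProjectionOnto_mem_subspace_eq_self z
    have hZface : IsFace (polar S) Z := by
      refine ⟨?_, ?_, ?_⟩
      · intro y hy
        rw [hpol, show W.orthogonalProjectionOnto y = z from hy]
        exact hz.1 rfl
      · intro x hx y hy s t hs ht hst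
        have hx' : W.orthogonalProjectionOnto x = z := hx
        have hy' : W.orthogonalProjectionOnto y = z := hy
        change W.orthogonalProjectionOnto (s • x + t • y) = z
        rw [map_add, map_smul, map_smul, hx', hy', ← add_smul, hst, one_smul]
      · rintro x hx y hy ⟨_, ⟨s, t, hs, ht, hst, rfl⟩, hw⟩
        have hw' : W.orthogonalProjectionOnto (s • x + t • y) = z := hw
        rw [map_add, map_smul, map_smul] at hw'
        exact hz.2.2 _ ((hpol x).1 hx) _ ((hpol y).1 hy)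
          ⟨z, ⟨s, t, hs, ht, hst, hw'⟩, rfl⟩
    obtain ⟨p, b, -, hpb, hF⟩ := hfp Z hZface ⟨z, hprz⟩ (by
      intro h
      have h0 : (0 : E) ∈ polar S := by intro s _; simp
      rw [← h] at h0
      have h0' : W.orthogonalProjectionOnto (0 : E) = z := h0
      rw [map_zero] at h0'
      exact hz0 h0'.symm)
    have hzb : ⟪p, (z : E)⟫ = b := by
      have : (z : E) ∈ Z := hprz
      rw [hF] at this
      exact this.2
    refine ⟨W.orthogonalProjectionOnto p, fun y hy hne => ?_⟩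
    rw [hproj, hproj, hzb]
    have hpry : W.orthogonalProjectionOnto (y : E) = y :=
      Submodule.orthogonalProjectionOnto_mem_subspace_eq_self y
    have hyT : (y : E) ∈ polar S := by rw [hpol, hpry]; exact hy
    refine lt_of_le_of_ne (hpb y hyT) fun h => hne ?_
    have : (y : E) ∈ Z := by rw [hF]; exact ⟨hyT, h⟩
    have h2 : W.orthogonalProjectionOnto (y : E) = z := this
    rw [hpry] at h2
    exact h2
  obtain ⟨a, b, -, hab, hF⟩ := hfe F2 hF2 hF2ne (by
    intro h
    rw [h, hdS] at hd2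
    exact absurd hd2 (by norm_num))
  have hset : (Subtype.val '' {s : W | s ∈ S' ∧ ⟪W.orthogonalProjectionOnto a, s⟫ = b} : Set E) =
      F2 := by
    rw [hF]
    ext s
    constructor
    · rintro ⟨w, ⟨hw, hwb⟩, rfl⟩
      rw [hproj] at hwb
      exact ⟨hw, hwb⟩
    · rintro ⟨hs, hsb⟩
      exact ⟨⟨s, hSW s hs⟩, ⟨hs, by rw [hproj]; exact hsb⟩, rfl⟩
  have ha' : W.orthogonalProjectionOnto a ≠ 0 := by
    intro h
    have hz : ∀ s ∈ S, ⟪a, s⟫ = 0 := by
      intro s hs
      have := hproj a ⟨s, hSW s hs⟩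
      rw [h, inner_zero_left] at this
      exact this.symm
    obtain ⟨f, hf⟩ := hF2ne
    rw [hF] at hf
    have hb : b = 0 := by rw [← hf.2, hz f hf.1]
    have : F2 = S := by
      rw [hF]
      ext s
      exact ⟨fun h => h.1, fun h => ⟨h, by rw [hb, hz s h]⟩⟩
    rw [this, hdS] at hd2
    exact absurd hd2 (by norm_num)
  refine core hWd hc' hcl' h0S' hint h1' h0' hexp' hexpT' ha' (b := b) (fun s hs => ?_) ?_
  · rw [hproj]; exact hab s hs
  · rw [← himg, hset, hd2]

end Reduction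

/-! ## Spectrahedra are closed and convex -/

lemma IsSpectrahedron.convex {n : ℕ} {S : Set (EuclideanSpace ℝ (Fin n))}
    (h : IsSpectrahedron S) : Convex ℝ S := by
  obtain ⟨m, A₀, A, -, -, rfl⟩ := h
  intro x hx y hy s t hs ht hst
  have hx' : (A₀ + ∑ i, x i • A i).PosSemidef := hx
  have hy' : (A₀ + ∑ i, y i • A i).PosSemidef := hy
  have key : A₀ + ∑ i, (s • x + t • y) i • A i =
      s • (A₀ + ∑ i, x i • A i) + t • (A₀ + ∑ i, y i • A i) := by
    have e : A₀ = s • A₀ + t • A₀ := by rw [← add_smul, hst, one_smul]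
    conv_lhs => rw [e]
    simp only [PiLp.add_apply, PiLp.smul_apply, smul_eq_mul, add_smul, smul_add, Finset.smul_sum,
      Finset.sum_add_distrib, smul_smul]
    abel
  change (A₀ + ∑ i, (s • x + t • y) i • A i).PosSemidef
  rw [key]
  exact (hx'.smul hs).add (hy'.smul ht)

lemma IsSpectrahedron.isClosed {n : ℕ} {S : Set (EuclideanSpace ℝ (Fin n))}
    (h : IsSpectrahedron S) : IsClosed S := by
  obtain ⟨m, A₀, A, h0, hA, rfl⟩ := h
  have hherm : ∀ x : EuclideanSpace ℝ (Fin n), (A₀ + ∑ i, x i • A i).IsHermitian := by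
    intro x
    rw [Matrix.IsHermitian, Matrix.conjTranspose_eq_transpose_of_trivial, Matrix.transpose_add,
      Matrix.transpose_sum, h0.eq]
    simp only [Matrix.transpose_smul, (hA _).eq]
  have : {x : EuclideanSpace ℝ (Fin n) | (A₀ + ∑ i, x i • A i).PosSemidef} =
      ⋂ v : Fin m → ℝ, {x | 0 ≤ v ⬝ᵥ ((A₀ + ∑ i, x i • A i) *ᵥ v)} := by
    ext x
    simp only [Set.mem_ofPred_eq, Set.mem_iInter, Matrix.posSemidef_iff_dotProduct_mulVec,
      hherm x, true_and, star_trivial]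
  rw [this]
  refine isClosed_iInter fun v => isClosed_le continuous_const ?_
  have hcont : Continuous fun x : EuclideanSpace ℝ (Fin n) => A₀ + ∑ i, x i • A i := by
    fun_prop
  exact continuous_const.dotProduct (hcont.matrix_mulVec continuous_const)

/-! ## Sets missing the origin: every signature occurs -/

section Positive

variable {d : ℕ}

lemma inner_eq_sum (x y : EuclideanSpace ℝ (Fin d)) : ⟪x, y⟫ = ∑ q, x q * y q := by
  simp [PiLp.inner_apply, mul_comm]

/-- `∑ 1 / x_q` over the coordinates `q ≥ i` -/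
noncomputable def phi (i : ℕ) (x : EuclideanSpace ℝ (Fin d)) : ℝ :=
  ∑ q ∈ Finset.univ.filter (fun q : Fin d => i ≤ (q : ℕ)), (x q)⁻¹

/-- The set `{x | x_q > 0 for q ≥ i and ∑_{q ≥ i} 1 / x_q ≤ d - i, for all i ∈ T}`. -/
def bodyOf (d : ℕ) (T : Finset ℕ) : Set (EuclideanSpace ℝ (Fin d)) :=
  {x | ∀ i ∈ T, (∀ q : Fin d, i ≤ (q : ℕ) → 0 < x q) ∧ phi i x ≤ (d : ℝ) - i}

lemma card_ge (i : ℕ) : ((Finset.univ.filter (fun q : Fin d => i ≤ (q : ℕ))).card : ℝ) =
    ((d - i : ℕ) : ℝ) := by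
  congr 1
  rcases Nat.lt_or_ge i d with h | h
  · have : (Finset.univ.filter (fun q : Fin d => i ≤ (q : ℕ))) = Finset.Ici ⟨i, h⟩ := by
      ext q; simp [Fin.le_def]
    rw [this, Fin.card_Ici]
  · rw [Finset.card_eq_zero.2, Nat.sub_eq_zero_of_le h]
    rw [Finset.filter_eq_empty_iff]
    intro q _
    have := q.2
    omega

/-- Small perturbations in directions `v` with `v_q = 0` for `q ≥ i` stay in the body. -/
lemma small_mem {T : Finset ℕ} {x v : EuclideanSpace ℝ (Fin d)} {i : ℕ} (hx : x ∈ bodyOf d T)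
    (hlt : ∀ l ∈ T, l < i → phi l x < (d : ℝ) - l) (hv : ∀ q : Fin d, i ≤ (q : ℕ) → v q = 0) :
    ∃ δ : ℝ, 0 < δ ∧ x + δ • v ∈ bodyOf d T := by
  have key : ∀ l ∈ T, ∀ᶠ δ : ℝ in 𝓝 (0 : ℝ),
      (∀ q : Fin d, l ≤ (q : ℕ) → 0 < (x + δ • v) q) ∧ phi l (x + δ • v) ≤ (d : ℝ) - l := by
    intro l hl
    obtain ⟨hpos, hle⟩ := hx l hl
    rcases Nat.lt_or_ge l i with hli | hli
    · have h1 : ∀ᶠ δ : ℝ in 𝓝 (0 : ℝ), ∀ q : Fin d, l ≤ (q : ℕ) → 0 < (x + δ • v) q := by
        rw [Filter.eventually_all]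
        intro q
        by_cases hq : l ≤ (q : ℕ)
        · have hc : Continuous fun δ : ℝ => (x + δ • v) q := by
            simp only [PiLp.add_apply, PiLp.smul_apply, smul_eq_mul]
            fun_prop
          have h0 : (0 : ℝ) < (x + (0 : ℝ) • v) q := by simpa using hpos q hq
          filter_upwards [hc.continuousAt.eventually (lt_mem_nhds h0)] with δ hδ _ using hδ
        · exact Eventually.of_forall fun δ h => absurd h hq
      have h2 : ∀ᶠ δ : ℝ in 𝓝 (0 : ℝ), phi l (x + δ • v) < (d : ℝ) - l := by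
        have hc : ContinuousAt (fun δ : ℝ => phi l (x + δ • v)) 0 := by
          unfold phi
          apply tendsto_finsetSum
          intro q hq
          have hq' := hpos q (Finset.mem_filter.1 hq).2
          have hc : ContinuousAt (fun δ : ℝ => (x + δ • v) q) 0 := by
            have : Continuous fun δ : ℝ => (x + δ • v) q := by
              simp only [PiLp.add_apply, PiLp.smul_apply, smul_eq_mul]
              fun_prop
            exact this.continuousAt
          exact hc.inv₀ (by simpa using hq'.ne')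
        have h0 : phi l (x + (0 : ℝ) • v) < (d : ℝ) - l := by
          rw [zero_smul, add_zero]; exact hlt l hl hli
        exact hc.eventually (gt_mem_nhds h0)
      filter_upwards [h1, h2] with δ a1 a2 using ⟨a1, a2.le⟩
    · refine Eventually.of_forall fun δ => ?_
      have he : ∀ q : Fin d, l ≤ (q : ℕ) → (x + δ • v) q = x q := by
        intro q hq
        simp [hv q (hli.trans hq)]
      refine ⟨fun q hq => by rw [he q hq]; exact hpos q hq, ?_⟩
      have : phi l (x + δ • v) = phi l x :=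
        Finset.sum_congr rfl fun q hq => by rw [he q (Finset.mem_filter.1 hq).2]
      rw [this]; exact hle
  have h2 : ∀ᶠ δ : ℝ in 𝓝 (0 : ℝ), x + δ • v ∈ bodyOf d T := by
    have := (Filter.eventually_all_finset T).2 key
    filter_upwards [this] with δ hδ using hδ
  have h3 : ∀ᶠ δ : ℝ in 𝓝[>] (0 : ℝ), x + δ • v ∈ bodyOf d T := h2.filter_mono nhdsWithin_le_nhds
  obtain ⟨δ, h4, h5⟩ := (h3.and self_mem_nhdsWithin).exists
  exact ⟨δ, h5, h4⟩

lemma inv_mid {a b : ℝ} (ha : 0 < a) (hb : 0 < b) :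
    ((1 / 2) * a + (1 / 2) * b)⁻¹ ≤ (1 / 2) * a⁻¹ + (1 / 2) * b⁻¹ ∧
    (((1 / 2) * a + (1 / 2) * b)⁻¹ = (1 / 2) * a⁻¹ + (1 / 2) * b⁻¹ → a = b) := by
  have key : (1 / 2) * a⁻¹ + (1 / 2) * b⁻¹ - ((1 / 2) * a + (1 / 2) * b)⁻¹ =
      (a - b) ^ 2 / (2 * a * b * (a + b)) := by
    have : a + b ≠ 0 := by positivity
    field_simp
    ring
  have hden : 0 < 2 * a * b * (a + b) := by positivity
  constructor
  · have : 0 ≤ (a - b) ^ 2 / (2 * a * b * (a + b)) := by positivity
    linarith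
  · intro h
    rw [h, sub_self] at key
    have h2 : (a - b) ^ 2 = 0 := by
      rcases div_eq_zero_iff.1 key.symm with h | h
      · exact h
      · exact absurd h hden.ne'
    have := pow_eq_zero_iff (two_ne_zero) |>.1 h2
    linarith

/-- Strict convexity of `phi` on the body. -/
lemma mid_tight {T : Finset ℕ} {x s : EuclideanSpace ℝ (Fin d)} (hx : x ∈ bodyOf d T) (hs : s ∈ bodyOf d T) {l : ℕ}
    (hl : l ∈ T) (hw : phi l ((1 / 2 : ℝ) • x + (1 / 2 : ℝ) • s) = (d : ℝ) - l) :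
    phi l x = (d : ℝ) - l ∧ ∀ q : Fin d, l ≤ (q : ℕ) → s q = x q := by
  obtain ⟨hxp, hxle⟩ := hx l hl
  obtain ⟨hsp, hsle⟩ := hs l hl
  set A := Finset.univ.filter (fun q : Fin d => l ≤ (q : ℕ)) with hA
  have hsum : ∑ q ∈ A, ((1 / 2) * (x q)⁻¹ + (1 / 2) * (s q)⁻¹ -
      ((1 / 2) * x q + (1 / 2) * s q)⁻¹) ≤ 0 := by
    rw [Finset.sum_sub_distrib, Finset.sum_add_distrib, ← Finset.mul_sum, ← Finset.mul_sum]
    have h1 : ∑ q ∈ A, ((1 / 2) * x q + (1 / 2) * s q)⁻¹ = (d : ℝ) - l := by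
      rw [← hw]
      exact Finset.sum_congr rfl fun q _ => by simp
    have h2 : ∑ q ∈ A, (x q)⁻¹ ≤ (d : ℝ) - l := hxle
    have h3 : ∑ q ∈ A, (s q)⁻¹ ≤ (d : ℝ) - l := hsle
    rw [h1]
    linarith
  have hterm : ∀ q ∈ A, 0 ≤ (1 / 2) * (x q)⁻¹ + (1 / 2) * (s q)⁻¹ -
      ((1 / 2) * x q + (1 / 2) * s q)⁻¹ := by
    intro q hq
    have hq' := (Finset.mem_filter.1 hq).2
    have := (inv_mid (hxp q hq') (hsp q hq')).1
    linarith
  have hzero := (Finset.sum_eq_zero_iff_of_nonneg hterm).1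
    (le_antisymm hsum (Finset.sum_nonneg hterm))
  have heq : ∀ q : Fin d, l ≤ (q : ℕ) → s q = x q := by
    intro q hq
    have h1 := hzero q (Finset.mem_filter.2 ⟨Finset.mem_univ q, hq⟩)
    exact ((inv_mid (hxp q hq) (hsp q hq)).2 (by linarith)).symm
  refine ⟨?_, heq⟩
  rw [← hw]
  refine Finset.sum_congr rfl fun q hq => ?_
  have := heq q (Finset.mem_filter.1 hq).2
  simp only [PiLp.add_apply, PiLp.smul_apply, smul_eq_mul, this]
  congr 1
  ring

/-- From a point `x` of a face one can extend the segment from `s` to `x` beyond `x`, so `s` is in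
the face. -/
lemma mem_face {T : Finset ℕ} {F : Set (EuclideanSpace ℝ (Fin d))} (hF : IsFace (bodyOf d T) F) {x s : EuclideanSpace ℝ (Fin d)} (hx : x ∈ F)
    (hs : s ∈ bodyOf d T) {i : ℕ} (hlt : ∀ l ∈ T, l < i → phi l x < (d : ℝ) - l)
    (heq : ∀ q : Fin d, i ≤ (q : ℕ) → s q = x q) : s ∈ F := by
  obtain ⟨δ, hδ, hmem⟩ := small_mem (v := x - s) (hF.1 hx) hlt (by
    intro q hq
    simp [heq q hq])
  have h1 : (0 : ℝ) < 1 + δ := by linarith
  refine (hF.2.2 s hs _ hmem ⟨x, ⟨δ / (1 + δ), 1 / (1 + δ), by positivity, by positivity, ?_, ?_⟩,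
    hx⟩).1
  · field_simp
    ring
  · have e1 : (1 / (1 + δ)) * (1 + δ) = 1 := by field_simp
    have e2 : δ / (1 + δ) = (1 / (1 + δ)) * δ := by ring
    have e3 : (δ / (1 + δ)) • s + (1 / (1 + δ)) • (x + δ • (x - s)) =
        ((1 / (1 + δ)) * (1 + δ)) • x := by
      rw [e2]; module
    rw [e3, e1, one_smul]

/-- The nonempty proper faces. -/
lemma face_eq {T : Finset ℕ} {F : Set (EuclideanSpace ℝ (Fin d))} (hF : IsFace (bodyOf d T) F)
    (hne : F.Nonempty) (hne' : F ≠ bodyOf d T) :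
    ∃ i ∈ T, ∃ x ∈ F, phi i x = (d : ℝ) - i ∧ (∀ l ∈ T, l < i → phi l x < (d : ℝ) - l) ∧
      F = {s | s ∈ bodyOf d T ∧ ∀ q : Fin d, i ≤ (q : ℕ) → s q = x q} := by
  classical
  have tight : ∀ x ∈ F, ∃ l ∈ T, phi l x = (d : ℝ) - l ∧
      ∀ l' ∈ T, l' < l → phi l' x < (d : ℝ) - l' := by
    intro x hx
    by_contra hcon
    push Not at hcon
    have hall : ∀ l ∈ T, phi l x < (d : ℝ) - l := by
      intro l
      induction l using Nat.strong_induction_on with
      | _ l ih =>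
        intro hl
        refine lt_of_le_of_ne (hF.1 hx l hl).2 fun h => ?_
        obtain ⟨l', hl', hlt, hle⟩ := hcon l hl h
        exact absurd (ih l' hlt hl') (not_lt.2 hle)
    apply hne'
    refine Set.Subset.antisymm hF.1 fun s hs => ?_
    exact mem_face (i := d) hF hx hs (fun l hl _ => hall l hl) (fun q hq => by
      have := q.2; omega)
  let P : ℕ → Prop := fun i => ∃ x ∈ F, phi i x = (d : ℝ) - i ∧
    ∀ l' ∈ T, l' < i → phi l' x < (d : ℝ) - l'
  obtain ⟨x1, hx1⟩ := hne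
  obtain ⟨l1, hl1, hl1'⟩ := tight x1 hx1
  obtain ⟨i, hi, himax⟩ := Finset.exists_max_image (T.filter P) id
    ⟨l1, Finset.mem_filter.2 ⟨hl1, x1, hx1, hl1'⟩⟩
  obtain ⟨hiT, x, hxF, hxi, hxlt⟩ := Finset.mem_filter.1 hi
  refine ⟨i, hiT, x, hxF, hxi, hxlt, ?_⟩
  refine Set.Subset.antisymm ?_ ?_
  · intro s hs
    refine ⟨hF.1 hs, ?_⟩
    have hw : (1 / 2 : ℝ) • x + (1 / 2 : ℝ) • s ∈ F :=
      hF.2.1 hxF hs (by norm_num) (by norm_num) (by norm_num)
    obtain ⟨l, hl, hlw, hlw'⟩ := tight _ hw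
    obtain ⟨h1, h2⟩ := mid_tight (hF.1 hxF) (hF.1 hs) hl hlw
    have hle : l ≤ i := himax l (Finset.mem_filter.2 ⟨hl, _, hw, hlw, hlw'⟩)
    have hge : i ≤ l := by
      by_contra hcon
      push Not at hcon
      exact absurd h1 (hxlt l hl hcon).ne
    have : l = i := le_antisymm hle hge
    subst this
    exact h2
  · rintro s ⟨hs, heq⟩
    exact mem_face hF hxF hs hxlt heq

/-- Directions with `v_q = 0` for `q ≥ i`. -/
def dirs (d i : ℕ) : Submodule ℝ (EuclideanSpace ℝ (Fin d)) where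
  carrier := {v | ∀ q : Fin d, i ≤ (q : ℕ) → v q = 0}
  add_mem' := by
    intro a b ha hb q hq
    simp [ha q hq, hb q hq]
  zero_mem' := by intro q _; simp
  smul_mem' := by
    intro c a ha q hq
    simp [ha q hq]

lemma finrank_dirs {i : ℕ} (hi : i ≤ d) : finrank ℝ (dirs d i) = i := by
  let e : dirs d i ≃ₗ[ℝ] (Fin i → ℝ) :=
    { toFun := fun v q => (v : EuclideanSpace ℝ (Fin d)) (Fin.castLE hi q)
      map_add' := by intro a b; ext q; simp
      map_smul' := by intro c a; ext q; simp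
      invFun := fun u => ⟨WithLp.toLp 2 (fun q : Fin d => if h : (q : ℕ) < i then u ⟨q, h⟩ else 0),
        by
          intro q hq
          simp [not_lt.2 hq]⟩
      left_inv := by
        intro v
        ext q
        by_cases h : (q : ℕ) < i
        · simp [h]
        · simp only [h, dite_false]
          exact (v.2 q (not_lt.1 h)).symm
      right_inv := by
        intro u
        ext q
        simp }
  rw [e.finrank_eq, Module.finrank_fin_fun]

lemma dim_face {T : Finset ℕ} {x : EuclideanSpace ℝ (Fin d)} {i : ℕ} (hi : i ≤ d) (hx : x ∈ bodyOf d T)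
    (hlt : ∀ l ∈ T, l < i → phi l x < (d : ℝ) - l) :
    dim {s | s ∈ bodyOf d T ∧ ∀ q : Fin d, i ≤ (q : ℕ) → s q = x q} = i := by
  have : vectorSpan ℝ {s | s ∈ bodyOf d T ∧ ∀ q : Fin d, i ≤ (q : ℕ) → s q = x q} = dirs d i := by
    apply le_antisymm
    · rw [vectorSpan_def, Submodule.span_le]
      rintro _ ⟨a, ha, b, hb, rfl⟩ q hq
      simp [ha.2 q hq, hb.2 q hq]
    · intro v hv
      obtain ⟨δ, hδ, hmem⟩ := small_mem hx hlt hv
      have h1 := vsub_mem_vectorSpan ℝ
        (show x + δ • v ∈ {s | s ∈ bodyOf d T ∧ ∀ q : Fin d, i ≤ (q : ℕ) → s q = x q} from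
          ⟨hmem, fun q hq => by simp [hv q hq]⟩)
        (show x ∈ {s | s ∈ bodyOf d T ∧ ∀ q : Fin d, i ≤ (q : ℕ) → s q = x q} from
          ⟨hx, fun q _ => rfl⟩)
      rw [vsub_eq_sub, add_sub_cancel_left] at h1
      have h2 := Submodule.smul_mem _ δ⁻¹ h1
      rwa [smul_smul, inv_mul_cancel₀ hδ.ne', one_smul] at h2
  rw [dim_eq, this, finrank_dirs hi]

end Positive

section Positive2

variable {d : ℕ}

/-- The faces described in `face_eq` are exposed. -/
lemma exposed_face {T : Finset ℕ} {x : EuclideanSpace ℝ (Fin d)} {i : ℕ} (hid : i < d) (hiT : i ∈ T)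
    (hx : x ∈ bodyOf d T) (hxi : phi i x = (d : ℝ) - i) :
    IsExposedFace (bodyOf d T)
      {s | s ∈ bodyOf d T ∧ ∀ q : Fin d, i ≤ (q : ℕ) → s q = x q} := by
  classical
  obtain ⟨hxp, -⟩ := hx i hiT
  set A := Finset.univ.filter (fun q : Fin d => i ≤ (q : ℕ)) with hA
  let a : EuclideanSpace ℝ (Fin d) := WithLp.toLp 2 (fun q : Fin d => if i ≤ (q : ℕ) then -((x q)⁻¹) ^ 2 else 0)
  have ha : ∀ s : EuclideanSpace ℝ (Fin d), ⟪a, s⟫ = -∑ q ∈ A, ((x q)⁻¹) ^ 2 * s q := by
    intro s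
    rw [inner_eq_sum, ← Finset.sum_neg_distrib, hA, Finset.sum_filter]
    refine Finset.sum_congr rfl fun q _ => ?_
    by_cases hq : i ≤ (q : ℕ)
    · simp [a, hq]
    · simp [a, hq]
  have key : ∀ s ∈ bodyOf d T, ⟪a, s⟫ ≤ ⟪a, x⟫ ∧ (⟪a, s⟫ = ⟪a, x⟫ →
      ∀ q : Fin d, i ≤ (q : ℕ) → s q = x q) := by
    intro s hs
    obtain ⟨hsp, hsle⟩ := hs i hiT
    have hterm : ∀ q ∈ A, (s q)⁻¹ - (x q)⁻¹ + ((x q)⁻¹) ^ 2 * (s q - x q) =
        (s q)⁻¹ * ((x q)⁻¹ * (s q - x q)) ^ 2 := by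
      intro q hq
      have h1 := (hsp q (Finset.mem_filter.1 hq).2).ne'
      have h2 := (hxp q (Finset.mem_filter.1 hq).2).ne'
      field_simp
      ring
    have hnn : ∀ q ∈ A, 0 ≤ (s q)⁻¹ * ((x q)⁻¹ * (s q - x q)) ^ 2 := by
      intro q hq
      have h1 := hsp q (Finset.mem_filter.1 hq).2
      positivity
    have hsum : ∑ q ∈ A, (s q)⁻¹ * ((x q)⁻¹ * (s q - x q)) ^ 2 =
        ∑ q ∈ A, (s q)⁻¹ - ∑ q ∈ A, (x q)⁻¹ + (⟪a, x⟫ - ⟪a, s⟫) := by
      rw [ha, ha, ← Finset.sum_congr rfl hterm]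
      simp only [Finset.sum_add_distrib, Finset.sum_sub_distrib, mul_sub]
      ring
    have e1 : ∑ q ∈ A, (s q)⁻¹ ≤ (d : ℝ) - i := hsle
    have e2 : ∑ q ∈ A, (x q)⁻¹ = (d : ℝ) - i := hxi
    have e3 := Finset.sum_nonneg hnn
    refine ⟨by linarith, fun h q hq => ?_⟩
    have hz : ∑ q ∈ A, (s q)⁻¹ * ((x q)⁻¹ * (s q - x q)) ^ 2 = 0 := by
      apply le_antisymm _ e3
      rw [hsum, h]
      linarith
    have h1 := (Finset.sum_eq_zero_iff_of_nonneg hnn).1 hz q
      (Finset.mem_filter.2 ⟨Finset.mem_univ q, hq⟩)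
    have h2 := (inv_pos.2 (hsp q hq)).ne'
    have h3 := (inv_pos.2 (hxp q hq)).ne'
    have h4 := (pow_eq_zero_iff two_ne_zero).1 ((mul_eq_zero.1 h1).resolve_left h2)
    have h5 := (mul_eq_zero.1 h4).resolve_left h3
    linarith
  refine ⟨a, ⟪a, x⟫, ?_, fun s hs => (key s hs).1, ?_⟩
  · intro h
    have h1 : a ⟨i, hid⟩ = 0 := by rw [h]; rfl
    have h2 : (x ⟨i, hid⟩) ≠ 0 := (hxp ⟨i, hid⟩ le_rfl).ne'
    simp [a] at h1
    exact h2 h1
  · ext s
    constructor
    · rintro ⟨hs, heq⟩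
      refine ⟨hs, ?_⟩
      rw [ha, ha]
      congr 1
      exact Finset.sum_congr rfl fun q hq => by rw [heq q (Finset.mem_filter.1 hq).2]
    · rintro ⟨hs, heq⟩
      exact ⟨hs, (key s hs).2 heq⟩

lemma convex_body (T : Finset ℕ) : Convex ℝ (bodyOf d T) := by
  intro x hx y hy s t hs ht hst l hl
  obtain ⟨hxp, hxle⟩ := hx l hl
  obtain ⟨hyp, hyle⟩ := hy l hl
  have hpos : ∀ q : Fin d, l ≤ (q : ℕ) → 0 < s * x q + t * y q := by
    intro q hq
    rcases hs.eq_or_lt with h | h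
    · have : t = 1 := by linarith
      rw [← h, this, zero_mul, zero_add, one_mul]
      exact hyp q hq
    · have h1 := mul_pos h (hxp q hq)
      have h2 := mul_nonneg ht (hyp q hq).le
      linarith
  refine ⟨fun q hq => by simpa using hpos q hq, ?_⟩
  have h1 : phi l (s • x + t • y) ≤ s * phi l x + t * phi l y := by
    unfold phi
    rw [Finset.mul_sum, Finset.mul_sum, ← Finset.sum_add_distrib]
    refine Finset.sum_le_sum fun q hq => ?_
    have hq' := (Finset.mem_filter.1 hq).2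
    have a1 := hxp q hq'
    have a2 := hyp q hq'
    have a3 := hpos q hq'
    simp only [PiLp.add_apply, PiLp.smul_apply, smul_eq_mul]
    rw [inv_le_iff_one_le_mul₀ a3]
    have h3 : (s * (x q)⁻¹ + t * (y q)⁻¹) * (s * x q + t * y q) =
        (s + t) ^ 2 + s * t * ((x q - y q) ^ 2 * ((x q)⁻¹ * (y q)⁻¹)) := by
      field_simp
      ring
    rw [h3, hst]
    have : 0 ≤ s * t * ((x q - y q) ^ 2 * ((x q)⁻¹ * (y q)⁻¹)) := by positivity
    linarith
  have h2 : s * phi l x + t * phi l y ≤ s * ((d : ℝ) - l) + t * ((d : ℝ) - l) :=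
    add_le_add (mul_le_mul_of_nonneg_left hxle hs) (mul_le_mul_of_nonneg_left hyle ht)
  have h3 : s * ((d : ℝ) - l) + t * ((d : ℝ) - l) = (d : ℝ) - l := by rw [← add_mul, hst, one_mul]
  linarith

/-- A point on the face of index `i` (no tight constraint if `i = d`). -/
noncomputable def pt (d i : ℕ) : EuclideanSpace ℝ (Fin d) :=
  WithLp.toLp 2 (fun q : Fin d => (((d : ℝ) + 1)⁻¹ +
    if (q : ℕ) = i then ((d : ℝ) - i) * (1 - ((d : ℝ) + 1)⁻¹) else 0)⁻¹)

lemma phi_pt {i l : ℕ} (hi : i ≤ d) (hl : l ≤ d) : phi l (pt d i) =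
    ((d : ℝ) - l) * ((d : ℝ) + 1)⁻¹ +
      if l ≤ i then ((d : ℝ) - i) * (1 - ((d : ℝ) + 1)⁻¹) else 0 := by
  unfold phi pt
  simp only [inv_inv]
  rw [Finset.sum_add_distrib, Finset.sum_const, nsmul_eq_mul, card_ge, Nat.cast_sub hl]
  congr 1
  rw [Finset.sum_filter]
  rcases hi.eq_or_lt with rfl | hid
  · simp
  · by_cases hli : l ≤ i
    · rw [if_pos hli, Finset.sum_eq_single ⟨i, hid⟩]
      · simp [hli]
      · intro q _ hq
        have : (q : ℕ) ≠ i := fun h => hq (Fin.ext h)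
        simp [this]
      · intro h; exact absurd (Finset.mem_univ _) h
    · rw [if_neg hli]
      apply Finset.sum_eq_zero
      intro q _
      by_cases hq : l ≤ (q : ℕ)
      · have : (q : ℕ) ≠ i := by omega
        simp [this]
      · simp [hq]

lemma pt_pos {i : ℕ} (hi : i ≤ d) (q : Fin d) : 0 < pt d i q := by
  unfold pt
  apply inv_pos.2
  have h1 : (0 : ℝ) < ((d : ℝ) + 1)⁻¹ := by positivity
  have h2 : ((d : ℝ) + 1)⁻¹ ≤ 1 := inv_le_one_of_one_le₀ (by linarith [(Nat.cast_nonneg d : (0:ℝ) ≤ d)])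
  have h3 : (i : ℝ) ≤ d := by exact_mod_cast hi
  split_ifs
  · have := mul_nonneg (sub_nonneg.2 h3) (sub_nonneg.2 h2)
    linarith
  · linarith

lemma pt_mem {T : Finset ℕ} (hT : ∀ i ∈ T, i < d) {i : ℕ} (hi : i ≤ d) :
    pt d i ∈ bodyOf d T ∧ (∀ l ∈ T, l < i → phi l (pt d i) < (d : ℝ) - l) := by
  have hc0 : (0 : ℝ) < ((d : ℝ) + 1)⁻¹ := by positivity
  have h3 : (i : ℝ) ≤ d := by exact_mod_cast hi
  have hlt : ∀ l ∈ T, l < i → phi l (pt d i) < (d : ℝ) - l := by
    intro l hl hli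
    rw [phi_pt hi (hT l hl).le, if_pos hli.le]
    have h1 : (l : ℝ) < i := by exact_mod_cast hli
    have hd : (0 : ℝ) < d := by
      have : 0 < d := by have := hT l hl; omega
      exact_mod_cast this
    have h2 : ((d : ℝ) + 1)⁻¹ < 1 := inv_lt_one_of_one_lt₀ (by linarith)
    nlinarith [mul_pos (sub_pos.2 h1) (sub_pos.2 h2)]
  refine ⟨fun l hl => ⟨fun q _ => pt_pos hi q, ?_⟩, hlt⟩
  rcases lt_trichotomy l i with h | h | h
  · exact (hlt l hl h).le
  · subst h
    rw [phi_pt hi (hT l hl).le, if_pos le_rfl]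
    nlinarith
  · rw [phi_pt hi (hT l hl).le, if_neg (not_le.2 h), add_zero]
    have h2 : ((d : ℝ) + 1)⁻¹ ≤ 1 :=
      inv_le_one_of_one_le₀ (by linarith [(Nat.cast_nonneg d : (0:ℝ) ≤ d)])
    have h4 : (l : ℝ) < d := by exact_mod_cast hT l hl
    nlinarith

lemma phi_pt_self {i : ℕ} (hi : i ≤ d) : phi i (pt d i) = (d : ℝ) - i := by
  rw [phi_pt hi hi, if_pos le_rfl]
  ring

lemma body_eq_self (T : Finset ℕ) (x : EuclideanSpace ℝ (Fin d)) :
    {s | s ∈ bodyOf d T ∧ ∀ q : Fin d, d ≤ (q : ℕ) → s q = x q} = bodyOf d T := by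
  ext s
  exact ⟨fun h => h.1, fun h => ⟨h, fun q hq => absurd q.2 (not_lt.2 hq)⟩⟩

lemma signature_body {T : Finset ℕ} (hT : ∀ i ∈ T, i < d) :
    signature (bodyOf d T) = insert d (T : Set ℕ) := by
  have hdim : dim (bodyOf d T) = d := by
    obtain ⟨h1, h2⟩ := pt_mem hT (le_refl d)
    have := dim_face le_rfl h1 h2
    rwa [body_eq_self] at this
  ext k
  constructor
  · rintro ⟨F, hne, hF, rfl⟩
    by_cases hFS : F = bodyOf d T
    · left; rw [hFS, hdim]
    · obtain ⟨i, hi, x, hxF, -, hlt, hFe⟩ := face_eq hF hne hFS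
      right
      rw [hFe, dim_face (hT i hi).le (hF.1 hxF) hlt]
      exact hi
  · rintro (rfl | hk)
    · exact ⟨bodyOf k T, ⟨_, (pt_mem hT le_rfl).1⟩,
        ⟨subset_rfl, convex_body T, fun x hx y hy _ => ⟨hx, hy⟩⟩, hdim⟩
    · have hkT : k ∈ T := hk
      obtain ⟨h1, h2⟩ := pt_mem hT (hT k hkT).le
      obtain ⟨a, b, -, hab, hFe⟩ := exposed_face (hT k hkT) hkT h1 (phi_pt_self (hT k hkT).le)
      refine ⟨{s | s ∈ bodyOf d T ∧ ∀ q : Fin d, k ≤ (q : ℕ) → s q = pt d k q},
        ⟨_, h1, fun q _ => rfl⟩, ?_, dim_face (hT k hkT).le h1 h2⟩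
      rw [hFe]
      exact isFace_exposed (convex_body T) hab

lemma faciallyExposed_body {T : Finset ℕ} (hT : ∀ i ∈ T, i < d) :
    FaciallyExposed (bodyOf d T) := by
  intro F hF hne hFS
  obtain ⟨i, hi, x, hxF, hxi, -, hFe⟩ := face_eq hF hne hFS
  rw [hFe]
  exact exposed_face (hT i hi) hi (hF.1 hxF) hxi

/-! ### The polar -/

/-- `{y | y ≤ 0 and y_q = 0 for q < m}` -/
def cone (d m : ℕ) : Set (EuclideanSpace ℝ (Fin d)) :=
  {y | ∀ q : Fin d, y q ≤ 0 ∧ ((q : ℕ) < m → y q = 0)}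

lemma nonneg_coord {c e : ℝ} (h : ∀ t : ℝ, 0 ≤ t → c + t * e ≤ 1) : e ≤ 0 := by
  by_contra hcon
  push Not at hcon
  have := h ((2 + |c|) / e) (by positivity)
  rw [div_mul_cancel₀ _ hcon.ne'] at this
  have h2 := neg_abs_le c
  linarith

lemma polar_body {T : Finset ℕ} (hT : ∀ i ∈ T, i < d) {m : ℕ} (hm : ∀ i ∈ T, m ≤ i)
    (hm' : m ∈ insert d T) : polar (bodyOf d T) = cone d m := by
  classical
  ext y
  constructor
  · intro hy q
    have hx0 := (pt_mem hT (le_refl d)).1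
    have hin : ∀ t : ℝ, ⟪pt d d + t • EuclideanSpace.single q (1 : ℝ), y⟫ =
        ⟪pt d d, y⟫ + t * y q := by
      intro t
      rw [inner_add_left, real_inner_smul_left, EuclideanSpace.inner_single_left]
      simp
    constructor
    · apply nonneg_coord (c := ⟪pt d d, y⟫)
      intro t ht
      rw [← hin]
      apply hy
      intro l hl
      obtain ⟨h1, h2⟩ := hx0 l hl
      have hge : ∀ q' : Fin d, pt d d q' ≤
          (pt d d + t • EuclideanSpace.single q (1 : ℝ) : EuclideanSpace ℝ (Fin d)) q' := by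
        intro q'
        simp only [PiLp.add_apply, PiLp.smul_apply, smul_eq_mul, PiLp.single_apply]
        split_ifs
        · linarith
        · linarith
      refine ⟨fun q' hq' => (h1 q' hq').trans_le (hge q'), le_trans ?_ h2⟩
      exact Finset.sum_le_sum fun q' hq' =>
        inv_anti₀ (h1 q' (Finset.mem_filter.1 hq').2) (hge q')
    · intro hqm
      have h1 : -y q ≤ 0 := by
        apply nonneg_coord (c := ⟪pt d d, y⟫)
        intro t _
        have h2 := hin (-t)
        have h3 : ⟪pt d d + (-t) • EuclideanSpace.single q (1 : ℝ), y⟫ ≤ 1 := by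
          apply hy
          intro l hl
          obtain ⟨h1, h2⟩ := hx0 l hl
          have he : ∀ q' : Fin d, l ≤ (q' : ℕ) →
              (pt d d + (-t) • EuclideanSpace.single q (1 : ℝ) : EuclideanSpace ℝ (Fin d)) q' = pt d d q' := by
            intro q' hq'
            have hne : q' ≠ q := by
              rintro rfl
              have := hm l hl
              omega
            simp [hne]
          refine ⟨fun q' hq' => by rw [he q' hq']; exact h1 q' hq', ?_⟩
          have : phi l (pt d d + (-t) • EuclideanSpace.single q (1 : ℝ)) = phi l (pt d d) :=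
            Finset.sum_congr rfl fun q' hq' => by rw [he q' (Finset.mem_filter.1 hq').2]
          rw [this]; exact h2
        rw [h2] at h3
        linarith
      have h2 : y q ≤ 0 := by
        apply nonneg_coord (c := ⟪pt d d, y⟫)
        intro t ht
        rw [← hin]
        apply hy
        intro l hl
        obtain ⟨h1, h2⟩ := hx0 l hl
        have he : ∀ q' : Fin d, l ≤ (q' : ℕ) →
            (pt d d + t • EuclideanSpace.single q (1 : ℝ) : EuclideanSpace ℝ (Fin d)) q' = pt d d q' := by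
          intro q' hq'
          have hne : q' ≠ q := by
            rintro rfl
            have := hm l hl
            omega
          simp [hne]
        refine ⟨fun q' hq' => by rw [he q' hq']; exact h1 q' hq', ?_⟩
        have : phi l (pt d d + t • EuclideanSpace.single q (1 : ℝ)) = phi l (pt d d) :=
          Finset.sum_congr rfl fun q' hq' => by rw [he q' (Finset.mem_filter.1 hq').2]
        rw [this]; exact h2
      linarith
  · intro hy x hx
    rw [inner_eq_sum]
    refine le_trans (Finset.sum_nonpos fun q _ => ?_) zero_le_one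
    by_cases hq : (q : ℕ) < m
    · rw [(hy q).2 hq, mul_zero]
    · rcases Finset.mem_insert.1 hm' with h | h
      · have := q.2; omega
      · have := (hx m h).1 q (not_lt.1 hq)
        exact mul_nonpos_of_nonneg_of_nonpos this.le (hy q).1

lemma faciallyExposed_cone (m : ℕ) : FaciallyExposed (cone d m) := by
  classical
  intro F hF hne hFC
  let Z : Finset (Fin d) := Finset.univ.filter fun q => ∀ y ∈ F, y q = 0
  have hstar : ∀ A : Finset (Fin d), Disjoint A Z → ∃ y ∈ F, ∀ q ∈ A, y q < 0 := by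
    intro A
    induction A using Finset.induction_on with
    | empty => intro _; obtain ⟨y, hy⟩ := hne; exact ⟨y, hy, by simp⟩
    | insert p A hp ih =>
      intro hdis
      obtain ⟨y, hy, hyA⟩ := ih (Finset.disjoint_of_subset_left (Finset.subset_insert p A) hdis)
      have hpZ : p ∉ Z := Finset.disjoint_left.1 hdis (Finset.mem_insert_self p A)
      have : ∃ y' ∈ F, y' p ≠ 0 := by
        by_contra hcon
        push Not at hcon
        exact hpZ (Finset.mem_filter.2 ⟨Finset.mem_univ p, hcon⟩)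
      obtain ⟨y', hy', hy'p⟩ := this
      refine ⟨(1 / 2 : ℝ) • y + (1 / 2 : ℝ) • y',
        hF.2.1 hy hy' (by norm_num) (by norm_num) (by norm_num), fun q hq => ?_⟩
      simp only [PiLp.add_apply, PiLp.smul_apply, smul_eq_mul]
      rcases Finset.mem_insert.1 hq with rfl | hq
      · have h1 := (hF.1 hy q).1
        have h2 := lt_of_le_of_ne (hF.1 hy' q).1 hy'p
        linarith
      · have h1 := hyA q hq
        have h2 := (hF.1 hy' q).1
        linarith
  obtain ⟨y, hy, hyZ⟩ := hstar Zᶜ (disjoint_compl_left)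
  have hFe : ∀ s ∈ cone d m, (∀ q ∈ Z, s q = 0) → s ∈ F := by
    intro s hs hsZ
    have hev : ∀ᶠ δ : ℝ in 𝓝 (0 : ℝ), ∀ q ∈ Zᶜ, (y + δ • (y - s)) q < 0 := by
      rw [Filter.eventually_all_finset]
      intro q hq
      have hc : Continuous fun δ : ℝ => (y + δ • (y - s)) q := by
        simp only [PiLp.add_apply, PiLp.smul_apply, smul_eq_mul]
        fun_prop
      have h0 : (y + (0 : ℝ) • (y - s)) q < 0 := by simpa using hyZ q hq
      exact hc.continuousAt.eventually (gt_mem_nhds h0)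
    have hev' : ∀ᶠ δ : ℝ in 𝓝[>] (0 : ℝ), ∀ q ∈ Zᶜ, (y + δ • (y - s)) q < 0 :=
      hev.filter_mono nhdsWithin_le_nhds
    obtain ⟨δ, hδ, hδ0⟩ := (hev'.and self_mem_nhdsWithin).exists
    have hδ0' : (0 : ℝ) < δ := hδ0
    have hmem : y + δ • (y - s) ∈ cone d m := by
      intro q
      constructor
      · by_cases hq : q ∈ Z
        · have h1 : y q = 0 := (Finset.mem_filter.1 hq).2 y hy
          simp [h1, hsZ q hq]
        · exact (hδ q (Finset.mem_compl.2 hq)).le
      · intro hqm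
        simp [(hF.1 hy q).2 hqm, (hs q).2 hqm]
    have h1 : (0 : ℝ) < 1 + δ := by linarith
    refine (hF.2.2 s hs _ hmem ⟨y, ⟨δ / (1 + δ), 1 / (1 + δ), by positivity, by positivity, ?_, ?_⟩,
      hy⟩).1
    · field_simp
      ring
    · have e1 : (1 / (1 + δ)) * (1 + δ) = 1 := by field_simp
      have e2 : δ / (1 + δ) = (1 / (1 + δ)) * δ := by ring
      have e3 : (δ / (1 + δ)) • s + (1 / (1 + δ)) • (y + δ • (y - s)) =
          ((1 / (1 + δ)) * (1 + δ)) • y := by
        rw [e2]; module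
      rw [e3, e1, one_smul]
  have hZne : Z.Nonempty := by
    by_contra hcon
    rw [Finset.not_nonempty_iff_eq_empty] at hcon
    apply hFC
    refine Set.Subset.antisymm hF.1 fun s hs => hFe s hs ?_
    rw [hcon]; simp
  let a : EuclideanSpace ℝ (Fin d) := WithLp.toLp 2 (fun q : Fin d => if q ∈ Z then (1 : ℝ) else 0)
  have ha : ∀ s : EuclideanSpace ℝ (Fin d), ⟪a, s⟫ = ∑ q ∈ Z, s q := by
    intro s
    rw [inner_eq_sum]
    have : ∑ q ∈ Z, s q = ∑ q, if q ∈ Z then s q else 0 := by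
      rw [Finset.sum_ite_mem, Finset.univ_inter]
    rw [this]
    refine Finset.sum_congr rfl fun q _ => ?_
    by_cases hq : q ∈ Z <;> simp [a, hq]
  refine ⟨a, 0, ?_, fun s hs => by rw [ha]; exact Finset.sum_nonpos fun q _ => (hs q).1, ?_⟩
  · obtain ⟨q, hq⟩ := hZne
    intro h
    have h1 : a q = 0 := by rw [h]; rfl
    simp [a, hq] at h1
  · ext s
    constructor
    · intro hs
      refine ⟨hF.1 hs, ?_⟩
      rw [ha]
      exact Finset.sum_eq_zero fun q hq => (Finset.mem_filter.1 hq).2 s hs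
    · rintro ⟨hs, h0⟩
      rw [ha] at h0
      refine hFe s hs fun q hq => ?_
      have h1 : ∑ q ∈ Z, -s q = 0 := by rw [Finset.sum_neg_distrib, h0, neg_zero]
      have h2 := (Finset.sum_eq_zero_iff_of_nonneg (fun q _ => neg_nonneg.2 (hs q).1)).1 h1 q hq
      linarith

end Positive2

/-! ### The bodies are spectrahedra -/

section Positive3

variable {d : ℕ}

/-- The block of index `i`. -/
noncomputable def blk (d i : ℕ) (x : EuclideanSpace ℝ (Fin d)) :
    Option (Fin d) → Option (Fin d) → ℝ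
  | some q, some q' => if q = q' ∧ i ≤ (q : ℕ) then x q else 0
  | some q, none => if i ≤ (q : ℕ) then 1 else 0
  | none, some q => if i ≤ (q : ℕ) then 1 else 0
  | none, none => (d : ℝ) - i

lemma blk_symm (i : ℕ) (x : EuclideanSpace ℝ (Fin d)) (a b : Option (Fin d)) : blk d i x a b = blk d i x b a := by
  rcases a with _ | q <;> rcases b with _ | q' <;> simp only [blk]
  by_cases h : q = q'
  · subst h; rfl
  · rw [if_neg (fun h' => h h'.1), if_neg (fun h' => h h'.1.symm)]

/-- The block diagonal matrix. -/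
noncomputable def mat (T : Finset ℕ) (x : EuclideanSpace ℝ (Fin d)) :
    Matrix (T × Option (Fin d)) (T × Option (Fin d)) ℝ :=
  Matrix.of fun a b => if a.1 = b.1 then blk d a.1 x a.2 b.2 else 0

lemma quad (T : Finset ℕ) (x : EuclideanSpace ℝ (Fin d)) (v : T × Option (Fin d) → ℝ) :
    v ⬝ᵥ (mat T x *ᵥ v) = ∑ i : T, ((∑ q ∈ Finset.univ.filter (fun q : Fin d => (i : ℕ) ≤ (q : ℕ)),
      (x q * v (i, some q) ^ 2 + 2 * v (i, some q) * v (i, none))) +
        ((d : ℝ) - (i : ℕ)) * v (i, none) ^ 2) := by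
  classical
  have h1 : ∀ a : T × Option (Fin d), (mat T x *ᵥ v) a = ∑ b, blk d a.1 x a.2 b * v (a.1, b) := by
    intro a
    rw [Matrix.mulVec, dotProduct, Fintype.sum_prod_type, Finset.sum_eq_single a.1]
    · simp [mat]
    · intro i _ hi
      apply Finset.sum_eq_zero
      intro b _
      simp [mat, Ne.symm hi]
    · intro h; exact absurd (Finset.mem_univ _) h
  rw [dotProduct, Fintype.sum_prod_type]
  refine Finset.sum_congr rfl fun i _ => ?_
  simp only [h1, Fintype.sum_option, blk]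
  have h2 : ∀ q : Fin d, ∑ q' : Fin d, (if q = q' ∧ (i : ℕ) ≤ (q : ℕ) then x q else 0) *
      v (i, some q') = if (i : ℕ) ≤ (q : ℕ) then x q * v (i, some q) else 0 := by
    intro q
    rw [Finset.sum_eq_single q]
    · by_cases h : (i : ℕ) ≤ (q : ℕ) <;> simp [h]
    · intro q' _ hq'
      simp [Ne.symm hq']
    · intro h; exact absurd (Finset.mem_univ _) h
  simp only [h2]
  rw [Finset.sum_filter]
  have h3 : v (i, none) * ((((d : ℝ) - (i : ℕ)) * v (i, none)) +
      ∑ q : Fin d, (if (i : ℕ) ≤ (q : ℕ) then (1 : ℝ) else 0) * v (i, some q)) =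
      ((d : ℝ) - (i : ℕ)) * v (i, none) ^ 2 +
        ∑ q : Fin d, (if (i : ℕ) ≤ (q : ℕ) then v (i, none) * v (i, some q) else 0) := by
    rw [mul_add, Finset.mul_sum]
    congr 1
    · ring
    · refine Finset.sum_congr rfl fun q _ => ?_
      split_ifs <;> ring
  rw [h3]
  have h4 : ∑ q : Fin d, v (i, some q) * ((if (i : ℕ) ≤ (q : ℕ) then (1 : ℝ) else 0) * v (i, none) +
      if (i : ℕ) ≤ (q : ℕ) then x q * v (i, some q) else 0) =
      ∑ q : Fin d, (if (i : ℕ) ≤ (q : ℕ) then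
        x q * v (i, some q) ^ 2 + v (i, some q) * v (i, none) else 0) := by
    refine Finset.sum_congr rfl fun q _ => ?_
    split_ifs <;> ring
  rw [h4]
  have h5 : ∑ q : Fin d, (if (i : ℕ) ≤ (q : ℕ) then
      (x q * v (i, some q) ^ 2 + 2 * v (i, some q) * v (i, none)) else 0) =
      ∑ q : Fin d, (if (i : ℕ) ≤ (q : ℕ) then
        x q * v (i, some q) ^ 2 + v (i, some q) * v (i, none) else 0) +
      ∑ q : Fin d, (if (i : ℕ) ≤ (q : ℕ) then v (i, none) * v (i, some q) else 0) := by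
    rw [← Finset.sum_add_distrib]
    refine Finset.sum_congr rfl fun q _ => ?_
    split_ifs <;> ring
  rw [h5]
  ring

lemma mat_symm (T : Finset ℕ) (x : EuclideanSpace ℝ (Fin d)) : (mat T x).IsHermitian := by
  rw [Matrix.IsHermitian, Matrix.conjTranspose_eq_transpose_of_trivial]
  ext a b
  simp only [mat, Matrix.transpose_apply, Matrix.of_apply]
  by_cases h : a.1 = b.1
  · rw [if_pos h, if_pos h.symm, h, blk_symm]
  · rw [if_neg h, if_neg (Ne.symm h)]

lemma mat_posSemidef {T : Finset ℕ} (x : EuclideanSpace ℝ (Fin d)) : (mat T x).PosSemidef ↔ x ∈ bodyOf d T := by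
  classical
  rw [Matrix.posSemidef_iff_dotProduct_mulVec]
  simp only [star_trivial, quad]
  constructor
  · rintro ⟨-, h⟩ i hi
    -- vectors supported on the block `i`
    have hb : ∀ (u : Fin d → ℝ),
        0 ≤ (∑ q ∈ Finset.univ.filter (fun q : Fin d => i ≤ (q : ℕ)),
          (x q * u q ^ 2 + 2 * u q)) + ((d : ℝ) - i) := by
      intro u
      have h1 := h fun a => if (a.1 : ℕ) = i then (match a.2 with
        | some q => u q
        | none => 1) else 0
      rw [Finset.sum_eq_single (⟨i, hi⟩ : T)] at h1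
      · simpa using h1
      · intro j _ hj
        have : (j : ℕ) ≠ i := fun h' => hj (Subtype.ext h')
        simp [this]
      · intro h'; exact absurd (Finset.mem_univ _) h'
    have hpos : ∀ q : Fin d, i ≤ (q : ℕ) → 0 < x q := by
      intro q hq
      by_contra hcon
      push Not at hcon
      have h1 := hb (fun q' => if q' = q then -(1 + |(d : ℝ) - i|) else 0)
      rw [Finset.sum_eq_single q] at h1
      · simp only [if_true] at h1
        have h2 := le_abs_self ((d : ℝ) - i)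
        have h3 := abs_nonneg ((d : ℝ) - i)
        have h4 : x q * (-(1 + |(d : ℝ) - i|)) ^ 2 ≤ 0 :=
          mul_nonpos_of_nonpos_of_nonneg hcon (sq_nonneg _)
        linarith
      · intro q' _ hq'
        simp [hq']
      · intro h'
        exact absurd (Finset.mem_filter.2 ⟨Finset.mem_univ q, hq⟩) h'
    refine ⟨hpos, ?_⟩
    have h1 := hb (fun q => -(x q)⁻¹)
    have h2 : ∑ q ∈ Finset.univ.filter (fun q : Fin d => i ≤ (q : ℕ)),
        (x q * (-(x q)⁻¹) ^ 2 + 2 * -(x q)⁻¹) = -phi i x := by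
      unfold phi
      rw [← Finset.sum_neg_distrib]
      refine Finset.sum_congr rfl fun q hq => ?_
      have := (hpos q (Finset.mem_filter.1 hq).2).ne'
      field_simp
      ring
    rw [h2] at h1
    linarith
  · intro hx
    refine ⟨mat_symm T x, fun v => Finset.sum_nonneg fun i _ => ?_⟩
    obtain ⟨hpos, hle⟩ := hx i i.2
    have h1 : ∑ q ∈ Finset.univ.filter (fun q : Fin d => (i : ℕ) ≤ (q : ℕ)),
        (-(v (i, none) ^ 2 * (x q)⁻¹)) ≤
        ∑ q ∈ Finset.univ.filter (fun q : Fin d => (i : ℕ) ≤ (q : ℕ)),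
        (x q * v (i, some q) ^ 2 + 2 * v (i, some q) * v (i, none)) := by
      refine Finset.sum_le_sum fun q hq => ?_
      have hp := hpos q (Finset.mem_filter.1 hq).2
      have h2 : x q * v (i, some q) ^ 2 + 2 * v (i, some q) * v (i, none) +
          v (i, none) ^ 2 * (x q)⁻¹ = (x q)⁻¹ * (x q * v (i, some q) + v (i, none)) ^ 2 := by
        field_simp
        ring
      have h3 : 0 ≤ (x q)⁻¹ * (x q * v (i, some q) + v (i, none)) ^ 2 := by positivity
      linarith
    rw [Finset.sum_neg_distrib, ← Finset.mul_sum] at h1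
    have h2 : v (i, none) ^ 2 * phi i x ≤ v (i, none) ^ 2 * ((d : ℝ) - (i : ℕ)) :=
      mul_le_mul_of_nonneg_left hle (sq_nonneg _)
    unfold phi at h2
    linarith

lemma isSpectrahedron_of {n : ℕ} {ι : Type} [Fintype ι] [DecidableEq ι] (A₀ : Matrix ι ι ℝ)
    (A : Fin n → Matrix ι ι ℝ) (h0 : A₀.IsSymm) (h : ∀ i, (A i).IsSymm) :
    IsSpectrahedron {x : EuclideanSpace ℝ (Fin n) | (A₀ + ∑ i, x i • A i).PosSemidef} := by
  let f := (Fintype.equivFin ι).symm
  refine ⟨Fintype.card ι, A₀.submatrix f f, fun i => (A i).submatrix f f, h0.submatrix f,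
    fun i => (h i).submatrix f, ?_⟩
  ext x
  simp only [Set.mem_ofPred_eq]
  rw [← Matrix.posSemidef_submatrix_equiv f]
  have : (A₀ + ∑ i, x i • A i).submatrix f f =
      A₀.submatrix f f + ∑ i, x i • (A i).submatrix f f := by
    ext a b
    simp [Matrix.sum_apply]
  rw [this]

lemma isSpectrahedron_body (T : Finset ℕ) : IsSpectrahedron (bodyOf d T) := by
  classical
  let A : Fin d → Matrix (T × Option (Fin d)) (T × Option (Fin d)) ℝ := fun q =>
    mat T (WithLp.toLp 2 (Pi.single q 1)) - mat T 0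
  have hmat : ∀ x : EuclideanSpace ℝ (Fin d), mat T x = mat T 0 + ∑ q, x q • A q := by
    intro x
    ext a b
    rw [Matrix.add_apply, Matrix.sum_apply]
    simp only [A, Matrix.smul_apply, Matrix.sub_apply, smul_eq_mul, mat, Matrix.of_apply]
    by_cases hab : a.1 = b.1
    · simp only [if_pos hab]
      rcases a with ⟨i, _ | q⟩ <;> rcases b with ⟨i', _ | q'⟩
      · simp [blk]
      · simp [blk]
      · simp [blk]
      · simp only [blk]
        by_cases hq : q = q' ∧ (i : ℕ) ≤ (q : ℕ)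
        · simp only [if_pos hq]
          rw [Finset.sum_eq_single q]
          · simp
          · intro p _ hp
            simp [Ne.symm hp]
          · intro h; exact absurd (Finset.mem_univ _) h
        · simp only [if_neg hq]
          simp
    · simp [hab]
  have hsymm : ∀ x : EuclideanSpace ℝ (Fin d), (mat T x).IsSymm := by
    intro x
    have := mat_symm T x
    rwa [Matrix.IsHermitian, Matrix.conjTranspose_eq_transpose_of_trivial] at this
  have h := isSpectrahedron_of (mat T (0 : EuclideanSpace ℝ (Fin d))) A (hsymm 0) (fun q => (hsymm _).sub (hsymm 0))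
  convert h using 1
  ext x
  rw [Set.mem_ofPred_eq, ← hmat, mat_posSemidef]

end Positive3

/-- The literal wording of Q1, which does not ask that `S` contains the origin, is true. -/
theorem literal (I : Finset ℕ) (hI : I.Nonempty) :
    ∃ (n : ℕ) (S : Set (EuclideanSpace ℝ (Fin n))), IsSpectrahedron S ∧ signature S = (I : Set ℕ) ∧
      FaciallyExposed S ∧ FaciallyExposed (polar S) := by
  classical
  set d := I.max' hI with hd
  have hT : ∀ i ∈ I.erase d, i < d := by
    intro i hi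
    exact lt_of_le_of_ne (I.le_max' i (Finset.mem_of_mem_erase hi)) (Finset.ne_of_mem_erase hi)
  have hins : insert d (I.erase d) = I := Finset.insert_erase (I.max'_mem hI)
  refine ⟨d, bodyOf d (I.erase d), isSpectrahedron_body _, ?_, faciallyExposed_body hT, ?_⟩
  · rw [signature_body hT, ← Finset.coe_insert, hins]
  · rw [polar_body hT (m := I.min' hI) (fun i hi => I.min'_le i (Finset.mem_of_mem_erase hi))
      (by rw [hins]; exact I.min'_mem hI)]
    exact faciallyExposed_cone _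

/-- (1) Q1 exactly as worded is true: for every nonempty finite `I` there is a spectrahedron with
signature `I` (not containing the origin in the nontrivial cases) that is facially exposed
together with its polar.
(2), (3) If `S` is asked to contain the origin, so that polarity is a duality, Q1 is false: the
set `{0, 2, 3}` is not the signature of any closed convex set (in particular of any spectrahedron)
containing the origin, in any dimension, that is facially exposed together with its polar. -/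
theorem result :
    (∀ I : Set ℕ, I.Finite → I.Nonempty → ∃ (n : ℕ) (S : Set (EuclideanSpace ℝ (Fin n))),
      IsSpectrahedron S ∧ signature S = I ∧ FaciallyExposed S ∧ FaciallyExposed (polar S)) ∧
    (∀ (n : ℕ) (S : Set (EuclideanSpace ℝ (Fin n))), Convex ℝ S → IsClosed S → 0 ∈ S →
      signature S = {0, 2, 3} → ¬ (FaciallyExposed S ∧ FaciallyExposed (polar S))) ∧
    (∃ I : Set ℕ, I.Finite ∧ I.Nonempty ∧
      ∀ (n : ℕ) (S : Set (EuclideanSpace ℝ (Fin n))), IsSpectrahedron S → 0 ∈ S →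
        signature S = I → ¬ (FaciallyExposed S ∧ FaciallyExposed (polar S))) := by
  have h : ∀ (n : ℕ) (S : Set (EuclideanSpace ℝ (Fin n))), Convex ℝ S → IsClosed S → 0 ∈ S →
      signature S = {0, 2, 3} → ¬ (FaciallyExposed S ∧ FaciallyExposed (polar S)) :=
    fun n S hc hcl h0 hs ⟨h1, h2⟩ => main hc hcl h0 hs h1 h2
  refine ⟨?_, h, {0, 2, 3}, by simp, by simp,
    fun n S hS h0 hs => h n S hS.convex hS.isClosed h0 hs⟩
  intro I hI hne
  obtain ⟨n, S, h1, h2, h3, h4⟩ := literal hI.toFinset (by simpa using hne)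
  exact ⟨n, S, h1, by rw [h2, hI.coe_toFinset], h3, h4⟩

end Pool.Agent.Results.MP_f0e28a_gt.ZeroTwoThree
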